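import Pool.Agent.Y237.Z8.Frm
import Pool.Agent.TH841.PT.SVP
import Pool.Agent.W216.RT.AVH
import Pool.Agent.W29.RT.CNT2
import Pool.Agent.Helper256.KM.Mertens

/-!
# Project Z8 (helper723), part CNT: coprime pairs with given small prime factors of the forms
-/

set_option autoImplicit false
set_option linter.all false

namespace Pool.Agent.Y237.Z8

open Finset Pool.Agent.W262.RK Pool.Agent.W307.RT Pool.Agent.TH841.PT Pool.Agent.Y723.Z8
open Pool.Agent.W372.RK2 (sq_pow_dvd)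
open Pool.Agent.W29.RT (dvd_S1 dvd_S2)

/-- the number of the roots of the product of the forms -/
noncomputable def rho8 (p : ℕ) : ℝ := ∑ j, rr8 (j, ty8 j p) p

lemma rr8_nonneg (i : Fin 7 × Bool) (p : ℕ) : 0 ≤ rr8 i p := by
  unfold rr8
  split_ifs <;> norm_num

lemma rr8_le (i : Fin 7 × Bool) (p : ℕ) : rr8 i p ≤ 2 := by
  unfold rr8
  split_ifs <;> norm_num

lemma rr8_le1 (i : Fin 7 × Bool) (hi : i.1.val < 4) (p : ℕ) : rr8 i p ≤ 1 := by
  unfold rr8
  rw [if_pos hi]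
  split_ifs <;> norm_num

lemma rho8_nonneg (p : ℕ) : 0 ≤ rho8 p := sum_nonneg fun _ _ => rr8_nonneg _ _

lemma rho8_le (p : ℕ) : rho8 p ≤ ((10 : ℕ) : ℝ) := by
  unfold rho8
  rw [Fin.sum_univ_seven]
  have h0 := rr8_le1 (0, ty8 0 p) (show ((0 : Fin 7)).val < 4 by decide) p
  have h1 := rr8_le1 (1, ty8 1 p) (show ((1 : Fin 7)).val < 4 by decide) p
  have h2 := rr8_le1 (2, ty8 2 p) (show ((2 : Fin 7)).val < 4 by decide) p
  have h3 := rr8_le1 (3, ty8 3 p) (show ((3 : Fin 7)).val < 4 by decide) p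
  have h4 := rr8_le (4, ty8 4 p) p
  have h5 := rr8_le (5, ty8 5 p) p
  have h6 := rr8_le (6, ty8 6 p) p
  push_cast
  linarith

/-- the sieve factor -/
lemma exp_rho (h : S_CHR) (z : ℕ) (hz : 7 ≤ z) : ∃ C : ℝ, 0 ≤ C ∧ ∀ y : ℕ, 3 ≤ y → z < y →
    Real.exp (-∑ p ∈ PS z y, rho8 p / p) ≤ C / (Real.log y) ^ 7 := by
  obtain ⟨C1, hC1⟩ := h (-1) (Or.inl rfl) z
  obtain ⟨C2, hC2⟩ := h 2 (Or.inr (Or.inl rfl)) z
  obtain ⟨C3, hC3⟩ := Pool.Agent.Helper256.KM.mertens_inv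
  refine ⟨Real.exp (7 * (C3 + z) + C1 + 2 * C2), (Real.exp_pos _).le, fun y hy3 hzy => ?_⟩
  have h1 := (abs_le.1 (hC1 y hzy)).1
  have h2 := (abs_le.1 (hC2 y hzy)).1
  have h3 := (abs_le.1 (hC3 y hy3)).1
  have h4 : ∑ p ∈ (Icc 1 y).filter Nat.Prime, (1 : ℝ) / p ≤ z + ∑ p ∈ PS z y, (1 : ℝ) / p := by
    have h5 : (Icc 1 y).filter Nat.Prime ⊆ Icc 1 z ∪ PS z y := by
      intro p hp
      rw [mem_filter, mem_Icc] at hp
      rw [mem_union, mem_Icc, mem_PS]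
      by_cases hpz : p ≤ z
      · exact Or.inl ⟨hp.1.1, hpz⟩
      · exact Or.inr ⟨⟨not_le.1 hpz, hp.1.2⟩, hp.2⟩
    refine (sum_le_sum_of_subset_of_nonneg h5 fun _ _ _ => by positivity).trans ?_
    have h6 : ∑ p ∈ Icc 1 z ∪ PS z y, (1 : ℝ) / p ≤
        ∑ p ∈ Icc 1 z, (1 : ℝ) / p + ∑ p ∈ PS z y, (1 : ℝ) / p := by
      rw [← sum_union_inter]
      have : 0 ≤ ∑ p ∈ Icc 1 z ∩ PS z y, (1 : ℝ) / p := sum_nonneg fun _ _ => by positivity
      linarith
    refine h6.trans (add_le_add_left ?_ _)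
    calc ∑ p ∈ Icc 1 z, (1 : ℝ) / p ≤ ∑ p ∈ Icc 1 z, (1 : ℝ) := by
          refine sum_le_sum fun p hp => ?_
          have h7 : (1 : ℝ) ≤ p := by exact_mod_cast (mem_Icc.1 hp).1
          exact (div_le_one (by linarith)).2 h7
      _ = z := by simp
  have h5 : ∑ p ∈ PS z y, rho8 p / p = 7 * ∑ p ∈ PS z y, (1 : ℝ) / p +
      ∑ p ∈ PS z y, Jr (-1) p / p + 2 * ∑ p ∈ PS z y, Jr 2 p / p := by
    rw [mul_sum, mul_sum, ← sum_add_distrib, ← sum_add_distrib]
    refine sum_congr rfl fun p hp => ?_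
    have hp' := mem_PS.1 hp
    have : Fact p.Prime := ⟨hp'.2⟩
    unfold rho8
    rw [sum_rr (by omega)]
    ring
  have hlog : 0 < Real.log y := Real.log_pos (by exact_mod_cast (by omega : 1 < y))
  rw [le_div_iff₀ (pow_pos hlog 7)]
  have h6 : (Real.log y) ^ 7 = Real.exp (7 * Real.log (Real.log y)) := by
    have := Real.exp_nat_mul (Real.log (Real.log y)) 7
    rw [Real.exp_log hlog] at this
    push_cast at this
    exact this.symm
  rw [h6, ← Real.exp_add]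
  apply Real.exp_le_exp.2
  rw [h5]
  linarith

/-! ### The parts -/

lemma pr8_pow {z : ℕ} {a b : ℤ} {i : Fin 7 × Bool} (h0 : F8 a b i.1 ≠ 0) {p : ℕ} (hp : p.Prime)
    (hz : z < p) {k : ℕ} (hk : k ≠ 0) : (p : ℤ) ^ k ∣ pr8 z a b i ↔
      (p : ℤ) ^ k ∣ F8 a b i.1 ∧ ty8 i.1 p = i.2 := by
  have h1 : ∀ x : ℤ, (p : ℤ) ^ k ∣ x ↔ p ^ k ∣ x.natAbs := by
    intro x
    rw [← Int.natCast_dvd]
    push_cast
    rfl
  unfold pr8
  rw [h1, h1, Int.natAbs_natCast]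
  by_cases hty : ty8 i.1 p = i.2
  · rw [partN_pow (Int.natAbs_ne_zero.2 h0) hp ⟨hz, hty⟩]
    simp [hty]
  · constructor
    · intro h2
      exact absurd (partN_of hp ((dvd_pow_self p hk).trans h2)).2 hty
    · intro h2
      exact absurd h2.2 hty

/-- the facts about a counted point -/
structure Gd8 (z y : ℕ) (s v u : Fin 7 × Bool → ℕ) (a b : ℤ) : Prop where
  hc : IsCoprime a b
  h0 : ∀ j, F8 a b j ≠ 0
  hs : S1 z y (pr8 z a b) = s
  hv : S2 z y (pr8 z a b) = v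
  hu : ∀ i, (u i : ℤ) ∣ pr8 z a b i

variable {z y Y : ℕ} {s v u : Fin 7 × Bool → ℕ} {a b : ℤ}

lemma Gd8.fs (g : Gd8 z y s v u a b) {p : ℕ} (hp : p.Prime) {i : Fin 7 × Bool} (h : p ∣ s i) :
    p ∈ PS z y ∧ (p : ℤ) ∣ F8 a b i.1 ∧ ¬ (p : ℤ) ^ 2 ∣ F8 a b i.1 ∧ ty8 i.1 p = i.2 := by
  rw [← g.hs] at h
  obtain ⟨h1, h2, h3⟩ := (dvd_S1 hp).1 h
  have hz := (mem_PS.1 h1).1.1
  have e1 := (pr8_pow (g.h0 i.1) hp hz one_ne_zero).1 (by rwa [pow_one])
  rw [pow_one] at e1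
  exact ⟨h1, e1.1, fun h4 => h3 ((pr8_pow (g.h0 i.1) hp hz two_ne_zero).2 ⟨h4, e1.2⟩), e1.2⟩

lemma Gd8.fv (g : Gd8 z y s v u a b) {p : ℕ} (hp : p.Prime) {i : Fin 7 × Bool} (h : p ∣ v i) :
    p ∈ PS z y ∧ (p : ℤ) ^ 2 ∣ F8 a b i.1 ∧ ty8 i.1 p = i.2 := by
  rw [← g.hv] at h
  obtain ⟨h1, h2⟩ := (dvd_S2 hp).1 h
  have e1 := (pr8_pow (g.h0 i.1) hp (mem_PS.1 h1).1.1 two_ne_zero).1 h2
  exact ⟨h1, e1.1, e1.2⟩

lemma Gd8.fu (g : Gd8 z y s v u a b) (hzy : z < y) (hu : u ∈ Tup (Fin 7 × Bool) y Y) {p : ℕ}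
    (hp : p.Prime) {i : Fin 7 × Bool} (h : p ∣ u i) :
    y < p ∧ (p : ℤ) ∣ F8 a b i.1 ∧ ty8 i.1 p = i.2 := by
  have h1 := (dv_prime ((Pool.Agent.W372.RK2.mem_Tup'.1 hu).1 i) hp h).1
  have h2 : (p : ℤ) ∣ pr8 z a b i := (Int.natCast_dvd_natCast.2 h).trans (g.hu i)
  have e1 := (pr8_pow (g.h0 i.1) hp (hzy.trans h1) one_ne_zero).1 (by rwa [pow_one])
  rw [pow_one] at e1
  exact ⟨h1, e1.1, e1.2⟩

lemma Gd8.fall (g : Gd8 z y s v u a b) (hzy : z < y) (hu : u ∈ Tup (Fin 7 × Bool) y Y) {p : ℕ}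
    (hp : p.Prime) {i : Fin 7 × Bool} (h : p ∣ s i * v i * u i) :
    z < p ∧ (p : ℤ) ∣ F8 a b i.1 ∧ ty8 i.1 p = i.2 := by
  rcases hp.dvd_mul.1 h with h | h
  · rcases hp.dvd_mul.1 h with h | h
    · have f := g.fs hp h
      exact ⟨(mem_PS.1 f.1).1.1, f.2.1, f.2.2.2⟩
    · have f := g.fv hp h
      exact ⟨(mem_PS.1 f.1).1.1, (dvd_pow_self (p : ℤ) two_ne_zero).trans f.2.1, f.2.2⟩
  · have f := g.fu hzy hu hp h
    exact ⟨hzy.trans f.1, f.2.1, f.2.2⟩

lemma Gd8.uniq (g : Gd8 z y s v u a b) (hz7 : 7 ≤ z) (hzy : z < y)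
    (hu : u ∈ Tup (Fin 7 × Bool) y Y) {p : ℕ} (hp : p.Prime) {i l : Fin 7 × Bool}
    (h : p ∣ s i * v i * u i) (h' : p ∣ s l * v l * u l) : i = l := by
  have f := g.fall hzy hu hp h
  have f' := g.fall hzy hu hp h'
  have h1 : i.1 = l.1 := un8 g.hc hp (by omega) f.2.1 f'.2.1
  refine Prod.ext h1 ?_
  rw [← f.2.2, ← f'.2.2, h1]

lemma Gd8.back (g : Gd8 z y s v u a b) {p : ℕ} (hp : p.Prime) (hP : p ∈ PS z y) {j : Fin 7}
    (h : (p : ℤ) ∣ F8 a b j) : p ∣ s (j, ty8 j p) ∨ p ∣ v (j, ty8 j p) := by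
  have hz := (mem_PS.1 hP).1.1
  have h1 : (p : ℤ) ∣ pr8 z a b (j, ty8 j p) := by
    have := (pr8_pow (i := (j, ty8 j p)) (g.h0 j) hp hz one_ne_zero).2 ⟨by rwa [pow_one], rfl⟩
    rwa [pow_one] at this
  by_cases h2 : (p : ℤ) ^ 2 ∣ pr8 z a b (j, ty8 j p)
  · right
    rw [← g.hv]
    exact (dvd_S2 hp).2 ⟨hP, h2⟩
  · left
    rw [← g.hs]
    exact (dvd_S1 hp).2 ⟨hP, h1, h2⟩

lemma dvd_mm {s v u : Fin 7 × Bool → ℕ} {p : ℕ} (hp : p.Prime) {i : Fin 7 × Bool}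
    (h : p ∣ s i * v i ^ 2 * u i) : p ∣ s i * v i * u i := by
  rcases hp.dvd_mul.1 h with h | h
  · rcases hp.dvd_mul.1 h with h | h
    · exact (h.mul_right _).mul_right _
    · exact ((hp.dvd_of_dvd_pow h).mul_left _).mul_right _
  · exact h.mul_left _

/-- two counted `t` with the same residues are congruent -/
lemma cong8 (hz7 : 7 ≤ z) (hzy : z < y) (hs : s ∈ Tup (Fin 7 × Bool) z y)
    (hv : v ∈ Tup (Fin 7 × Bool) z y) (hu : u ∈ Tup (Fin 7 × Bool) y Y) {w t t' : ℤ}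
    (g : Gd8 z y s v u t (w + 2 * t)) (g' : Gd8 z y s v u t' (w + 2 * t'))
    (h : ∀ p : ℕ, p.Prime → p ∣ ∏ i, s i * v i * u i → (p : ℤ) ∣ t - t') :
    ((∏ i, s i * v i ^ 2 * u i : ℕ) : ℤ) ∣ t - t' := by
  have hs' := (Pool.Agent.W372.RK2.mem_Tup'.1 hs).1
  have hv' := (Pool.Agent.W372.RK2.mem_Tup'.1 hv).1
  have hu' := (Pool.Agent.W372.RK2.mem_Tup'.1 hu).1
  have hd : ∀ (i : Fin 7 × Bool) {p : ℕ}, p.Prime → p ∣ s i * v i * u i → (p : ℤ) ∣ t - t' :=
    fun i p hp hpd => h p hp (hpd.trans (dvd_prod_of_mem (fun i => s i * v i * u i) (mem_univ i)))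
  rw [Nat.cast_prod]
  apply Finset.prod_dvd_of_coprime
  · intro i _ l _ hil
    rw [Function.onFun, Nat.isCoprime_iff_coprime]
    apply Nat.coprime_of_dvd
    intro p hp hpi hpl
    exact hil (g.uniq hz7 hzy hu hp (dvd_mm hp hpi) (dvd_mm hp hpl))
  intro i _
  have h1 : ((s i : ℕ) : ℤ) ∣ t - t' := by
    have h := sq_pow_dvd (dv_squarefree (hs' i)) 1 (t - t') (fun p hp hpd => by
      rw [pow_one]
      exact hd i hp ((hpd.mul_right _).mul_right _))
    rwa [pow_one] at h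
  have h2 : ((v i ^ 2 : ℕ) : ℤ) ∣ t - t' := by
    have h := sq_pow_dvd (dv_squarefree (hv' i)) 2 (t - t') (fun p hp hpd => by
      have f := g.fv hp hpd
      have f' := g'.fv hp hpd
      have h7 : 7 < p := lt_of_le_of_lt hz7 (mem_PS.1 f.1).1.1
      have hw := not_dvd_w hp h7 g.hc ((dvd_pow_self (p : ℤ) two_ne_zero).trans f.2.1)
      exact lift8 hp h7 hw f.2.1 f'.2.1 (hd i hp ((hpd.mul_left _).mul_right _)))
    exact_mod_cast h
  have h3 : ((u i : ℕ) : ℤ) ∣ t - t' := by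
    have h := sq_pow_dvd (dv_squarefree (hu' i)) 1 (t - t') (fun p hp hpd => by
      rw [pow_one]
      exact hd i hp (hpd.mul_left _))
    rwa [pow_one] at h
  have hcop1 : IsCoprime ((s i : ℕ) : ℤ) ((v i ^ 2 : ℕ) : ℤ) := by
    rw [Nat.isCoprime_iff_coprime]
    apply Nat.coprime_of_dvd
    intro p hp hps hpv
    exact (g.fs hp hps).2.2.1 (g.fv hp (hp.dvd_of_dvd_pow hpv)).2.1
  have hcop2 : IsCoprime ((s i * v i ^ 2 : ℕ) : ℤ) ((u i : ℕ) : ℤ) := by
    rw [Nat.isCoprime_iff_coprime]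
    apply Nat.coprime_of_dvd
    intro p hp hps hpu
    have h8 : y < p := (g.fu hzy hu hp hpu).1
    have h9 : p ≤ y := by
      rcases hp.dvd_mul.1 hps with h | h
      · exact (dv_prime (hs' i) hp h).2
      · exact (dv_prime (hv' i) hp (hp.dvd_of_dvd_pow h)).2
    omega
  rw [Nat.cast_mul]
  refine hcop2.mul_dvd ?_ h3
  rw [Nat.cast_mul]
  exact hcop1.mul_dvd h1 h2

/-! ### The factors -/

/-- the factor `p / (p - 10)` -/
noncomputable def g10 (p : ℕ) : ℝ := (p : ℝ) / ((p : ℝ) - (10 : ℕ))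

lemma g10_ge {p : ℕ} (hp : 10 < p) : 1 ≤ g10 p := by
  have h1 : ((10 : ℕ) : ℝ) < p := by exact_mod_cast hp
  unfold g10
  rw [le_div_iff₀ (by linarith)]
  have : (0 : ℝ) ≤ ((10 : ℕ) : ℝ) := Nat.cast_nonneg _
  linarith

lemma exp_le_g10 {p : ℕ} (hp : 10 < p) : Real.exp (rho8 p / p) ≤ g10 p := by
  have hc : ((10 : ℕ) : ℝ) < p := by exact_mod_cast hp
  have hp0 : (0 : ℝ) < p := lt_of_le_of_lt (Nat.cast_nonneg _) hc
  have h1 : rho8 p / p ≤ ((10 : ℕ) : ℝ) / p := by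
    rw [div_le_div_iff_of_pos_right hp0]; exact rho8_le p
  have h2 : (1 : ℝ) - ((10 : ℕ) : ℝ) / p ≤ Real.exp (-(((10 : ℕ) : ℝ) / p)) := by
    have := Real.add_one_le_exp (-(((10 : ℕ) : ℝ) / p : ℝ)); linarith
  have h3 : 0 < (1 : ℝ) - ((10 : ℕ) : ℝ) / p := by
    rw [sub_pos, div_lt_one hp0]; exact hc
  calc Real.exp (rho8 p / p) ≤ Real.exp (((10 : ℕ) : ℝ) / p) := Real.exp_le_exp.mpr h1
    _ = (Real.exp (-(((10 : ℕ) : ℝ) / p)))⁻¹ := by rw [← Real.exp_neg, neg_neg]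
    _ ≤ (1 - ((10 : ℕ) : ℝ) / p)⁻¹ := inv_anti₀ h3 h2
    _ = g10 p := by
      unfold g10
      rw [one_sub_div hp0.ne', inv_div]

/-- the exponential factor of the sieve -/
lemma exp_part {z y m : ℕ} (hz : 10 ≤ z) {w : ℤ} (hw : w ≠ 0) (ν : ℕ → ℕ)
    (hν : ∀ p ∈ PS z y, ¬ (p : ℤ) ∣ w → (ν p : ℝ) = rho8 p) :
    Real.exp (-∑ p ∈ (PS z y).filter (fun p => ¬ p ∣ m), (ν p : ℝ) / p) ≤
      Real.exp (-∑ p ∈ PS z y, rho8 p / p) * (∏ p ∈ (PS z y).filter (fun p => p ∣ m), g10 p) *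
        ∏ p ∈ w.natAbs.primeFactors.filter (fun p => z < p), g10 p := by
  have h1 : ∑ p ∈ PS z y, rho8 p / p = ∑ p ∈ (PS z y).filter (fun p => p ∣ m), rho8 p / p +
      ∑ p ∈ (PS z y).filter (fun p => ¬ p ∣ m), rho8 p / p :=
    (sum_filter_add_sum_filter_not _ _ _).symm
  have h2 : ∑ p ∈ (PS z y).filter (fun p => ¬ p ∣ m), rho8 p / p ≤
      ∑ p ∈ (PS z y).filter (fun p => ¬ p ∣ m), (ν p : ℝ) / p +
        ∑ p ∈ w.natAbs.primeFactors.filter (fun p => z < p), rho8 p / p := by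
    rw [← sum_filter_add_sum_filter_not ((PS z y).filter (fun p => ¬ p ∣ m))
      (fun p : ℕ => ((p : ℤ) ∣ w)) (fun p => rho8 p / (p : ℝ)), add_comm]
    apply add_le_add
    · have h3 : ∑ p ∈ ((PS z y).filter (fun p => ¬ p ∣ m)).filter (fun p : ℕ => ¬ (p : ℤ) ∣ w),
          rho8 p / (p : ℝ) = ∑ p ∈ ((PS z y).filter (fun p => ¬ p ∣ m)).filter
            (fun p : ℕ => ¬ (p : ℤ) ∣ w), (ν p : ℝ) / p := by
        refine sum_congr rfl fun p hp => ?_
        rw [mem_filter, mem_filter] at hp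
        rw [hν p hp.1.1 hp.2]
      rw [h3]
      exact sum_le_sum_of_subset_of_nonneg (filter_subset _ _) fun _ _ _ => by positivity
    · apply sum_le_sum_of_subset_of_nonneg
      · intro p hp
        rw [mem_filter, mem_filter, mem_PS] at hp
        rw [mem_filter, Nat.mem_primeFactors]
        exact ⟨⟨hp.1.1.2, Int.natCast_dvd.1 hp.2, Int.natAbs_ne_zero.2 hw⟩, hp.1.1.1.1⟩
      · intro p _ _
        exact div_nonneg (rho8_nonneg p) (Nat.cast_nonneg p)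
  have h3 : -∑ p ∈ (PS z y).filter (fun p => ¬ p ∣ m), (ν p : ℝ) / p ≤
      -∑ p ∈ PS z y, rho8 p / p + ∑ p ∈ (PS z y).filter (fun p => p ∣ m), rho8 p / p +
        ∑ p ∈ w.natAbs.primeFactors.filter (fun p => z < p), rho8 p / p := by linarith
  refine (Real.exp_le_exp.2 h3).trans ?_
  rw [Real.exp_add, Real.exp_add, Real.exp_sum, Real.exp_sum]
  have h4 : ∏ p ∈ (PS z y).filter (fun p => p ∣ m), Real.exp (rho8 p / p) ≤
      ∏ p ∈ (PS z y).filter (fun p => p ∣ m), g10 p := by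
    refine prod_le_prod (fun _ _ => (Real.exp_pos _).le) fun p hp => exp_le_g10 ?_
    have := (mem_PS.1 (mem_filter.1 hp).1).1.1
    omega
  have h5 : ∏ p ∈ w.natAbs.primeFactors.filter (fun p => z < p), Real.exp (rho8 p / p) ≤
      ∏ p ∈ w.natAbs.primeFactors.filter (fun p => z < p), g10 p := by
    refine prod_le_prod (fun _ _ => (Real.exp_pos _).le) fun p hp => exp_le_g10 ?_
    have := (mem_filter.1 hp).2
    omega
  have h6 : 0 ≤ ∏ p ∈ (PS z y).filter (fun p => p ∣ m), g10 p :=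
    (prod_nonneg fun _ _ => (Real.exp_pos _).le).trans h4
  exact mul_le_mul (mul_le_mul_of_nonneg_left h4 (Real.exp_pos _).le) h5
    (prod_nonneg fun _ _ => (Real.exp_pos _).le) (mul_nonneg (Real.exp_pos _).le h6)

/-- the product over the primes of `d` -/
lemma gp_mul (i : Fin 7 × Bool) {d : ℕ} (hd : d ∈ (PP z y).divisors) :
    (∏ p ∈ d.primeFactors, rr8 i p) * ∏ p ∈ d.primeFactors, g10 p =
      (d : ℝ) * gp (rr8 i) 10 d := by
  unfold gp g10
  have h1 : (d : ℝ) = ∏ p ∈ d.primeFactors, (p : ℝ) := by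
    rw [← Nat.cast_prod, Nat.prod_primeFactors_of_squarefree (dv_squarefree hd)]
  conv_rhs => rw [h1]
  rw [← prod_mul_distrib, ← prod_mul_distrib]
  refine prod_congr rfl fun p _ => ?_
  ring

lemma gp_nonneg8 (hz : 22 ≤ z) (i : Fin 7 × Bool) {d : ℕ} (hd : d ∈ (PP z y).divisors) :
    0 ≤ gp (rr8 i) 10 d := by
  unfold gp
  refine prod_nonneg fun p hp => div_nonneg (rr8_nonneg _ _) ?_
  have h1 := (dv_prime hd (Nat.prime_of_mem_primeFactors hp) (Nat.dvd_of_mem_primeFactors hp)).1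
  have h2 : ((10 : ℕ) : ℝ) < p := by exact_mod_cast (by omega : 10 < p)
  linarith

/-- membership, for every decidability instance -/
lemma mem_flt {α : Type*} {s : Finset α} {p : α → Prop} {inst : DecidablePred p} {a : α}
    (h1 : a ∈ s) (h2 : p a) : a ∈ @Finset.filter α p inst s := Finset.mem_filter.2 ⟨h1, h2⟩

/-- the weight of the tuples -/
noncomputable def Q8 (s v u : Fin 7 × Bool → ℕ) : ℝ :=
  (∏ i, gp (rr8 i) 10 (s i)) * (∏ i, gp (rr8 i) 10 (v i) / v i) *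
    (∏ i, 2 ^ (u i).primeFactors.card / (u i : ℝ))

lemma Q8_nonneg (hz : 22 ≤ z) (hs : s ∈ Tup (Fin 7 × Bool) z y)
    (hv : v ∈ Tup (Fin 7 × Bool) z y) : 0 ≤ Q8 s v u := by
  unfold Q8
  refine mul_nonneg (mul_nonneg ?_ ?_) ?_
  · exact prod_nonneg fun i _ => gp_nonneg8 hz i ((Pool.Agent.W372.RK2.mem_Tup'.1 hs).1 i)
  · exact prod_nonneg fun i _ => div_nonneg (gp_nonneg8 hz i ((Pool.Agent.W372.RK2.mem_Tup'.1 hv).1 i))
      (Nat.cast_nonneg _)
  · exact prod_nonneg fun i _ => by positivity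

lemma per8 {p : ℕ} (w x x' : ℤ) (h : (p : ℤ) ∣ x - x') (j : Fin 7) :
    (p : ℤ) ∣ F8 x (w + 2 * x) j ↔ (p : ℤ) ∣ F8 x' (w + 2 * x') j := by
  have h1 : (x : ZMod p) = (x' : ZMod p) := by
    rw [← sub_eq_zero, ← Int.cast_sub, ZMod.intCast_zmod_eq_zero_iff_dvd]
    exact h
  rw [← ZMod.intCast_zmod_eq_zero_iff_dvd, ← ZMod.intCast_zmod_eq_zero_iff_dvd, Fr_cast, Fr_cast]
  push_cast
  rw [h1]

/-- the sieving condition -/
def Z8 (N w : ℤ) (p n : ℕ) : Prop :=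
  ∃ j, (p : ℤ) ∣ F8 ((n : ℤ) - N) (w + 2 * ((n : ℤ) - N)) j

open Classical in
/-- the number of the forbidden classes -/
noncomputable def nu8 (N w : ℤ) (p : ℕ) : ℕ := ((range p).filter (fun n => Z8 N w p n)).card

lemma mod8 (N : ℤ) (p n : ℕ) : (p : ℤ) ∣ ((n : ℤ) - N) - (((n % p : ℕ) : ℤ) - N) := by
  push_cast
  exact ⟨(n : ℤ) / p, by have := Int.emod_add_mul_ediv (n : ℤ) p; linarith⟩

lemma Z8_per (N w : ℤ) (p n : ℕ) : Z8 N w p n ↔ Z8 N w p (n % p) :=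
  exists_congr fun j => per8 w _ _ (mod8 N p n) j

lemma nu8_le {p : ℕ} (hp : p.Prime) (h7 : 7 < p) (N w : ℤ) : nu8 N w p ≤ 10 := by
  have : Fact p.Prime := ⟨hp⟩
  have h := card_any_le (p := p) h7 N w
  unfold nu8 Z8
  convert h

lemma nu8_eq {p : ℕ} (hp : p.Prime) (h7 : 7 < p) (N : ℤ) {w : ℤ} (hw : ¬ (p : ℤ) ∣ w) :
    (nu8 N w p : ℝ) = rho8 p := by
  have : Fact p.Prime := ⟨hp⟩
  have h := card_any (p := p) h7 N hw
  unfold nu8 Z8 rho8
  rw [← h]
  congr!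

open Classical in
/-- the count for a fixed `w = b - 2 a` -/
lemma fib8 {C : ℝ} (hC : 0 ≤ C) {X : ℕ} (hz : 22 ≤ z) (hzy : z < y)
    (hSV : ∀ (Z : ℕ → ℕ → Prop) (ν : ℕ → ℕ), (∀ p ∈ PS z y, ∀ n, Z p n ↔ Z p (n % p)) →
      (∀ p ∈ PS z y, ((range p).filter (fun n => Z p n)).card = ν p ∧ ν p ≤ 10) →
      ∀ m r : ℕ, 1 ≤ m → m ^ 4 ≤ 2 * X + 1 →
      (((Icc 1 (2 * X + 1)).filter (fun t : ℕ => t ≡ r [MOD m] ∧
        ∀ p ∈ PS z y, ¬ p ∣ m → ¬ Z p t)).card : ℝ) ≤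
      C * ((2 * X + 1 : ℕ) / m) *
        Real.exp (-∑ p ∈ (PS z y).filter (fun p => ¬ p ∣ m), (ν p : ℝ) / p))
    (hs : s ∈ Tup (Fin 7 × Bool) z y) (hv : v ∈ Tup (Fin 7 × Bool) z y)
    (hu : u ∈ Tup (Fin 7 × Bool) y Y) (hsvu : (∏ i, s i * v i * u i) ^ 8 ≤ X) {w : ℤ}
    (hw0 : w ≠ 0) :
    (((Icc 1 (2 * X + 1)).filter (fun n : ℕ => Gd8 z y s v u ((n : ℤ) - (X + 1))
      (w + 2 * ((n : ℤ) - (X + 1))))).card : ℝ) ≤
      C * (2 * X + 1 : ℕ) * Real.exp (-∑ p ∈ PS z y, rho8 p / p) *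
        (∏ p ∈ w.natAbs.primeFactors.filter (fun p => z < p), g10 p) * Q8 s v u := by
  have hs' := (Pool.Agent.W372.RK2.mem_Tup'.1 hs).1
  have hv' := (Pool.Agent.W372.RK2.mem_Tup'.1 hv).1
  have hu' := (Pool.Agent.W372.RK2.mem_Tup'.1 hu).1
  set N : ℤ := (X : ℤ) + 1 with hN
  set T := (Icc 1 (2 * X + 1)).filter (fun n : ℕ => Gd8 z y s v u ((n : ℤ) - N)
      (w + 2 * ((n : ℤ) - N))) with hT
  have hgood : ∀ n ∈ T, Gd8 z y s v u ((n : ℤ) - N) (w + 2 * ((n : ℤ) - N)) :=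
    fun n hn => (mem_filter.1 hn).2
  have hQ : 0 ≤ Q8 s v u := Q8_nonneg hz hs hv
  have hW0 : 0 ≤ ∏ p ∈ w.natAbs.primeFactors.filter (fun p => z < p), g10 p :=
    prod_nonneg fun p hp => zero_le_one.trans (g10_ge (by have := (mem_filter.1 hp).2; omega))
  rcases T.eq_empty_or_nonempty with hTe | ⟨n0, hn0⟩
  · rw [hTe, card_empty, Nat.cast_zero]
    positivity
  have g0 := hgood n0 hn0
  set m := ∏ i, s i * v i ^ 2 * u i with hm
  have hs1 : ∀ i, 0 < s i := fun i => dv_pos (hs' i)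
  have hv1 : ∀ i, 0 < v i := fun i => dv_pos (hv' i)
  have hu1 : ∀ i, 0 < u i := fun i => dv_pos (hu' i)
  have hm1 : 1 ≤ m := Nat.succ_le_of_lt (prod_pos fun i _ =>
    Nat.mul_pos (Nat.mul_pos (hs1 i) (pow_pos (hv1 i) 2)) (hu1 i))
  have hm4 : m ^ 4 ≤ 2 * X + 1 := by
    have h1 : m ≤ (∏ i, s i * v i * u i) ^ 2 := by
      rw [← prod_pow]
      apply prod_le_prod'
      intro i _
      have a1 := hs1 i
      have a2 := hu1 i
      calc s i * v i ^ 2 * u i ≤ (s i * s i) * v i ^ 2 * (u i * u i) := by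
            apply Nat.mul_le_mul
            · apply Nat.mul_le_mul_right
              nlinarith
            · nlinarith
        _ = (s i * v i * u i) ^ 2 := by ring
    calc m ^ 4 ≤ ((∏ i, s i * v i * u i) ^ 2) ^ 4 := Nat.pow_le_pow_left h1 4
      _ = (∏ i, s i * v i * u i) ^ 8 := by rw [← pow_mul]
      _ ≤ X := hsvu
      _ ≤ 2 * X + 1 := by omega
  -- the sieve
  have hSVm := hSV (Z8 N w) (nu8 N w) (fun p _ n => Z8_per N w p n)
    (fun p hp => ⟨rfl, nu8_le (mem_PS.1 hp).2 (by have := (mem_PS.1 hp).1.1; omega) N w⟩) m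
  set B : ℝ := C * ((2 * X + 1 : ℕ) / m) *
    Real.exp (-∑ p ∈ (PS z y).filter (fun p => ¬ p ∣ m), (nu8 N w p : ℝ) / p) with hB
  have hB0 : 0 ≤ B := mul_nonneg (mul_nonneg hC (div_nonneg (Nat.cast_nonneg _)
    (Nat.cast_nonneg _))) (Real.exp_pos _).le
  -- the map
  set P := ∏ i, s i * v i * u i with hP
  have hP0 : P ≠ 0 := (prod_pos fun i _ =>
    Nat.mul_pos (Nat.mul_pos (hs1 i) (hv1 i)) (hu1 i)).ne'
  let R : ℕ → Finset ℕ := fun p => (range p).filter (fun n : ℕ => ∃ i, p ∣ s i * v i * u i ∧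
    (p : ℤ) ∣ F8 ((n : ℤ) - N) (w + 2 * ((n : ℤ) - N)) i.1)
  let Phi : ℕ → (P.primeFactors → ℕ) := fun n p => n % p
  have hex : ∀ p : ℕ, p.Prime → p ∣ P → ∃ i, p ∣ s i * v i * u i := by
    intro p hp h
    obtain ⟨i, -, hi⟩ := (hp.prime.dvd_finsetProd_iff _).1 h
    exact ⟨i, hi⟩
  have hmaps : ∀ n ∈ T, Phi n ∈ Fintype.piFinset (fun p : P.primeFactors => R p) := by
    intro n hn
    rw [Fintype.mem_piFinset]
    intro p
    have hp := Nat.prime_of_mem_primeFactors p.2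
    obtain ⟨i, hi⟩ := hex p hp (Nat.dvd_of_mem_primeFactors p.2)
    refine mem_filter.2 ⟨mem_range.2 (Nat.mod_lt _ hp.pos), i, hi, ?_⟩
    exact (per8 w _ _ (mod8 N p n) i.1).1 ((hgood n hn).fall hzy hu hp hi).2.1
  have hfib : ∀ φ, ((T.filter (fun n : ℕ => Phi n = φ)).card : ℝ) ≤ B := by
    intro φ
    rcases (T.filter (fun n : ℕ => Phi n = φ)).eq_empty_or_nonempty with he | ⟨r, hr⟩
    · rw [he, card_empty, Nat.cast_zero]
      exact hB0
    · refine le_trans ?_ (hSVm r hm1 hm4)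
      rw [Nat.cast_le]
      apply card_le_card
      intro t ht
      rw [mem_filter] at ht hr
      have g := hgood t ht.1
      have g' := hgood r hr.1
      have htX : t ∈ Icc 1 (2 * X + 1) := (mem_filter.1 ht.1).1
      have heq : Phi t = Phi r := ht.2.trans hr.2.symm
      refine mem_flt htX ⟨?_, ?_⟩
      · have h1 := cong8 (by omega) hzy hs hv hu g g' (fun p hp hpd => by
          have h2 : t % p = r % p := congrFun heq ⟨p, Nat.mem_primeFactors.2 ⟨hp, hpd, hP0⟩⟩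
          have h3 : ((t : ℤ) - N) - ((r : ℤ) - N) = (t : ℤ) - r := by ring
          rw [h3]
          exact (Nat.modEq_iff_dvd.1 h2.symm))
        rw [← hm] at h1
        have h3 : ((t : ℤ) - N) - ((r : ℤ) - N) = (t : ℤ) - r := by ring
        rw [h3] at h1
        exact ((Nat.modEq_iff_dvd.2 h1)).symm
      · rintro p hpP hpm ⟨j, hj⟩
        have hp := (mem_PS.1 hpP).2
        apply hpm
        rw [hm]
        refine Dvd.dvd.trans ?_ (dvd_prod_of_mem _ (mem_univ (j, ty8 j p)))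
        rcases g.back hp hpP hj with h | h
        · exact (h.mul_right _).mul_right _
        · exact ((h.pow two_ne_zero).mul_left _).mul_right _
  have hcard : (T.card : ℝ) ≤ (∏ p ∈ P.primeFactors, ((R p).card : ℝ)) * B := by
    rw [card_eq_sum_card_fiberwise (f := Phi)
      (t := Fintype.piFinset (fun p : P.primeFactors => R p)) hmaps]
    rw [Nat.cast_sum]
    refine (sum_le_sum fun φ _ => hfib φ).trans ?_
    rw [sum_const, nsmul_eq_mul, Fintype.card_piFinset,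
      prod_coe_sort P.primeFactors (fun p => (R p).card)]
    push_cast
    exact le_rfl
  -- the prime factors
  have hPf : P.primeFactors = univ.biUnion (fun i => (s i * v i * u i).primeFactors) := by
    ext p
    rw [mem_biUnion, Nat.mem_primeFactors]
    constructor
    · rintro ⟨hp, hd, -⟩
      obtain ⟨i, hi⟩ := hex p hp hd
      exact ⟨i, mem_univ i, Nat.mem_primeFactors.2 ⟨hp, hi,
        (Nat.mul_pos (Nat.mul_pos (hs1 i) (hv1 i)) (hu1 i)).ne'⟩⟩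
    · rintro ⟨i, -, hi⟩
      have hi' := Nat.mem_primeFactors.1 hi
      exact ⟨hi'.1, hi'.2.1.trans (dvd_prod_of_mem (fun i => s i * v i * u i) (mem_univ i)), hP0⟩
  have dsv : ∀ i, Disjoint (s i).primeFactors (v i).primeFactors := by
    intro i
    rw [disjoint_left]
    intro p h1 h2
    have hp := Nat.prime_of_mem_primeFactors h1
    exact (g0.fs hp (Nat.dvd_of_mem_primeFactors h1)).2.2.1
      (g0.fv hp (Nat.dvd_of_mem_primeFactors h2)).2.1
  have dsu : ∀ i, Disjoint ((s i).primeFactors ∪ (v i).primeFactors) (u i).primeFactors := by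
    intro i
    rw [disjoint_left]
    intro p h1 h2
    have hp := Nat.prime_of_mem_primeFactors h2
    have h3 := (g0.fu hzy hu hp (Nat.dvd_of_mem_primeFactors h2)).1
    rcases mem_union.1 h1 with h1 | h1
    · have := (mem_PS.1 (g0.fs hp (Nat.dvd_of_mem_primeFactors h1)).1).1.2
      omega
    · have := (mem_PS.1 (g0.fv hp (Nat.dvd_of_mem_primeFactors h1)).1).1.2
      omega
  have hR : ∀ i, ∀ p ∈ (s i * v i * u i).primeFactors, ((R p).card : ℝ) = rr8 i p := by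
    intro i p hp
    have hp' := Nat.mem_primeFactors.1 hp
    have f := g0.fall hzy hu hp'.1 hp'.2.1
    have hfact : Fact p.Prime := ⟨hp'.1⟩
    have h7 : 7 < p := by omega
    have hw := not_dvd_w hp'.1 h7 g0.hc f.2.1
    have h1 : R p = (range p).filter (fun n : ℕ =>
        (p : ℤ) ∣ F8 ((n : ℤ) - N) (w + 2 * ((n : ℤ) - N)) i.1) := by
      refine filter_congr fun n _ => ⟨?_, fun h => ⟨i, hp'.2.1, h⟩⟩
      rintro ⟨l, hl, h⟩
      rwa [g0.uniq (by omega) hzy hu hp'.1 hp'.2.1 hl]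
    have hw' : (w : ZMod p) ≠ 0 := by
      rwa [Ne, ZMod.intCast_zmod_eq_zero_iff_dvd]
    rw [h1]
    have h2 := card_rt (p := p) N w i.1
    have h3 : ((range p).filter (fun n : ℕ =>
        (p : ℤ) ∣ F8 ((n : ℤ) - N) (w + 2 * ((n : ℤ) - N)) i.1)).card = nr p (w : ZMod p) i.1 := by
      rw [← h2]
    rw [h3, nr_eq h7 hw', f.2.2]
  have hprodR : ∏ p ∈ P.primeFactors, ((R p).card : ℝ) ≤
      ∏ i, ((∏ p ∈ (s i).primeFactors, rr8 i p) * (∏ p ∈ (v i).primeFactors, rr8 i p) *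
        2 ^ (u i).primeFactors.card) := by
    rw [hPf, prod_biUnion]
    · refine prod_le_prod (fun _ _ => prod_nonneg fun _ _ => Nat.cast_nonneg _) fun i _ => ?_
      rw [prod_congr rfl (hR i)]
      rw [Nat.primeFactors_mul (Nat.mul_pos (hs1 i) (hv1 i)).ne' (hu1 i).ne',
        Nat.primeFactors_mul (hs1 i).ne' (hv1 i).ne', prod_union (dsu i), prod_union (dsv i)]
      apply mul_le_mul_of_nonneg_left
      · rw [← prod_const]
        exact prod_le_prod (fun _ _ => rr8_nonneg _ _) fun p _ => rr8_le i p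
      · exact mul_nonneg (prod_nonneg fun _ _ => rr8_nonneg _ _)
          (prod_nonneg fun _ _ => rr8_nonneg _ _)
    · intro i _ l _ hil
      rw [Function.onFun, Finset.disjoint_left]
      intro p h1 h2
      have hp := Nat.prime_of_mem_primeFactors h1
      exact hil (g0.uniq (by omega) hzy hu hp (Nat.dvd_of_mem_primeFactors h1)
        (Nat.dvd_of_mem_primeFactors h2))
  -- the exponential
  have hexp := exp_part (m := m) (y := y) (by omega : 10 ≤ z) hw0 (nu8 N w) (fun p hp hw =>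
    nu8_eq (mem_PS.1 hp).2 (by have := (mem_PS.1 hp).1.1; omega) N hw)
  have hmf : (PS z y).filter (fun p => p ∣ m) =
      univ.biUnion (fun i => (s i).primeFactors ∪ (v i).primeFactors) := by
    ext p
    rw [mem_filter, mem_biUnion]
    constructor
    · rintro ⟨hpP, hpm⟩
      have hp := (mem_PS.1 hpP).2
      obtain ⟨i, -, hi⟩ := (hp.prime.dvd_finsetProd_iff _).1 hpm
      refine ⟨i, mem_univ i, mem_union.2 ?_⟩
      rcases hp.dvd_mul.1 hi with h | h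
      · rcases hp.dvd_mul.1 h with h | h
        · exact Or.inl (Nat.mem_primeFactors.2 ⟨hp, h, (hs1 i).ne'⟩)
        · exact Or.inr (Nat.mem_primeFactors.2 ⟨hp, hp.dvd_of_dvd_pow h, (hv1 i).ne'⟩)
      · exfalso
        have h1 := (g0.fu hzy hu hp h).1
        have h2 := (mem_PS.1 hpP).1.2
        omega
    · rintro ⟨i, -, hi⟩
      rcases mem_union.1 hi with h | h
      · have hp := Nat.prime_of_mem_primeFactors h
        have hd := Nat.dvd_of_mem_primeFactors h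
        refine ⟨(g0.fs hp hd).1, Dvd.dvd.trans ?_ (dvd_prod_of_mem _ (mem_univ i))⟩
        exact (hd.mul_right _).mul_right _
      · have hp := Nat.prime_of_mem_primeFactors h
        have hd := Nat.dvd_of_mem_primeFactors h
        refine ⟨(g0.fv hp hd).1, Dvd.dvd.trans ?_ (dvd_prod_of_mem _ (mem_univ i))⟩
        exact ((hd.pow two_ne_zero).mul_left _).mul_right _
  have hprodm : ∏ p ∈ (PS z y).filter (fun p => p ∣ m), g10 p =
      ∏ i, ((∏ p ∈ (s i).primeFactors, g10 p) * ∏ p ∈ (v i).primeFactors, g10 p) := by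
    rw [hmf, prod_biUnion]
    · exact prod_congr rfl fun i _ => prod_union (dsv i)
    · intro i _ l _ hil
      rw [Function.onFun, Finset.disjoint_left]
      intro p h1 h2
      have hin : ∀ k, p ∈ (s k).primeFactors ∪ (v k).primeFactors → p ∣ s k * v k * u k := by
        intro k hk
        rcases mem_union.1 hk with h | h
        · exact ((Nat.dvd_of_mem_primeFactors h).mul_right _).mul_right _
        · exact ((Nat.dvd_of_mem_primeFactors h).mul_left _).mul_right _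
      have hp : p.Prime := by
        rcases mem_union.1 h1 with h | h <;> exact Nat.prime_of_mem_primeFactors h
      exact hil (g0.uniq (by omega) hzy hu hp (hin i h1) (hin l h2))
  rw [hprodm] at hexp
  -- conclusion
  have hA0 : 0 ≤ ∏ i, ((∏ p ∈ (s i).primeFactors, rr8 i p) *
      (∏ p ∈ (v i).primeFactors, rr8 i p) * (2 : ℝ) ^ (u i).primeFactors.card) :=
    prod_nonneg fun i _ => mul_nonneg (mul_nonneg (prod_nonneg fun _ _ => rr8_nonneg _ _)
      (prod_nonneg fun _ _ => rr8_nonneg _ _)) (by positivity)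
  have hCX : 0 ≤ C * (((2 * X + 1 : ℕ) : ℝ) / m) :=
    mul_nonneg hC (div_nonneg (Nat.cast_nonneg _) (Nat.cast_nonneg _))
  have hBle := mul_le_mul_of_nonneg_left hexp hCX
  have hfin := mul_le_mul hprodR hBle hB0 hA0
  refine (hcard.trans hfin).trans (le_of_eq ?_)
  have hkey : Q8 s v u = (∏ i, ((∏ p ∈ (s i).primeFactors, rr8 i p) *
      (∏ p ∈ (v i).primeFactors, rr8 i p) * (2 : ℝ) ^ (u i).primeFactors.card)) *
      (∏ i, ((∏ p ∈ (s i).primeFactors, g10 p) * ∏ p ∈ (v i).primeFactors, g10 p)) / m := by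
    unfold Q8
    rw [hm, Nat.cast_prod, ← prod_mul_distrib, ← prod_mul_distrib, ← prod_mul_distrib,
      ← prod_div_distrib]
    refine prod_congr rfl fun i _ => ?_
    have e1 := gp_mul i (hs' i)
    have e2 := gp_mul i (hv' i)
    have n1 : (s i : ℝ) ≠ 0 := by exact_mod_cast (hs1 i).ne'
    have n2 : (v i : ℝ) ≠ 0 := by exact_mod_cast (hv1 i).ne'
    have n3 : (u i : ℝ) ≠ 0 := by exact_mod_cast (hu1 i).ne'
    have e3 : ∀ A1 A2 B1 B2 E : ℝ, A1 * A2 * E * (B1 * B2) = (A1 * B1) * (A2 * B2) * E := by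
      intro A1 A2 B1 B2 E
      ring
    rw [e3, e1, e2]
    push_cast
    field_simp
  rw [hkey]
  ring

/-! ### The sum over `w` -/

lemma sum_abs (f : ℕ → ℝ) (hf : ∀ n, 0 ≤ f n) (M : ℕ) :
    ∑ w ∈ (Icc (-(M : ℤ)) M).filter (fun w => w ≠ 0), f w.natAbs ≤ 2 * ∑ n ∈ Icc 1 M, f n := by
  rw [← sum_fiberwise_of_maps_to (s := (Icc (-(M : ℤ)) M).filter (fun w => w ≠ 0))
    (t := Icc 1 M) (g := Int.natAbs), mul_sum]
  · apply sum_le_sum
    intro n _
    have h1 : ∑ w ∈ ((Icc (-(M : ℤ)) M).filter (fun w => w ≠ 0)).filter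
        (fun w => w.natAbs = n), f w.natAbs = ((((Icc (-(M : ℤ)) M).filter
          (fun w => w ≠ 0)).filter (fun w => w.natAbs = n)).card : ℝ) * f n := by
      rw [sum_congr rfl (fun w hw => by rw [(mem_filter.1 hw).2]), sum_const, nsmul_eq_mul]
    rw [h1]
    apply mul_le_mul_of_nonneg_right _ (hf n)
    have h2 : ((Icc (-(M : ℤ)) M).filter (fun w => w ≠ 0)).filter (fun w => w.natAbs = n) ⊆
        {(n : ℤ), -(n : ℤ)} := by
      intro w hw
      have := (mem_filter.1 hw).2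
      rw [mem_insert, mem_singleton]
      omega
    have h3 := (card_le_card h2).trans card_le_two
    exact_mod_cast h3
  · intro w hw
    rw [mem_filter, mem_Icc] at hw
    rw [mem_Icc]
    omega

lemma gp_one8 (i : Fin 7 × Bool) : gp (rr8 i) 10 1 = 1 := by
  unfold gp
  simp

theorem cnt_of (h : S_CHR) : S_CNT := by
  classical
  refine ⟨22, fun z hz => ?_⟩
  obtain ⟨C, K, y0, hC, hK, hSV⟩ := Pool.Agent.TH841.PT.SVPf.svp 10 z (by omega)
  obtain ⟨CA, hCA, hav⟩ := Pool.Agent.W216.RT.AVH.avh 10 z (by omega)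
  obtain ⟨CE, hCE, hE⟩ := exp_rho h z (by omega)
  refine ⟨C * 3 * CE * (2 * (CA * 3)) + 2, K + 7, max y0 3, by positivity, by omega, ?_⟩
  intro X y Y hy0 hzy hyX s hs v hv u hu hsvu
  have hs' := (Pool.Agent.W372.RK2.mem_Tup'.1 hs).1
  have hv' := (Pool.Agent.W372.RK2.mem_Tup'.1 hv).1
  have hu' := (Pool.Agent.W372.RK2.mem_Tup'.1 hu).1
  have hy1 : y0 ≤ y := (le_max_left _ _).trans hy0
  have hy3 : 3 ≤ y := (le_max_right _ _).trans hy0
  have hyK : y ^ K ≤ X := (Nat.pow_le_pow_right (by omega) (by omega)).trans hyX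
  have hy7 : y ^ 7 ≤ X := (Nat.pow_le_pow_right (by omega) (by omega)).trans hyX
  have hX1 : 1 ≤ X := le_trans (Nat.one_le_pow _ _ (by omega)) hy7
  have hlog : 0 < Real.log y := Real.log_pos (by exact_mod_cast (by omega : 1 < y))
  have hlog7 : 0 < (Real.log y) ^ 7 := pow_pos hlog 7
  have hQ : 0 ≤ Q8 s v u := Q8_nonneg hz hs hv
  set T := (Box X).filter (fun t : ℤ × ℤ => IsCoprime t.1 t.2 ∧ (∀ j, F8 t.1 t.2 j ≠ 0) ∧
      S1 z y (pr8 z t.1 t.2) = s ∧ S2 z y (pr8 z t.1 t.2) = v ∧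
      ∀ i, (u i : ℤ) ∣ pr8 z t.1 t.2 i) with hT
  have hgood : ∀ t ∈ T, Gd8 z y s v u t.1 t.2 := by
    intro t ht
    have h1 := (mem_filter.1 ht).2
    exact ⟨h1.1, h1.2.1, h1.2.2.1, h1.2.2.2.1, h1.2.2.2.2⟩
  have hbox : ∀ t ∈ T, t.1.natAbs ≤ X ∧ t.2.natAbs ≤ X := fun t ht =>
    mem_Box.1 (mem_filter.1 ht).1
  have hcard : (T.card : ℝ) = ∑ w ∈ Icc (-((3 * X : ℕ) : ℤ)) ((3 * X : ℕ) : ℤ),
      ((T.filter (fun t => t.2 - 2 * t.1 = w)).card : ℝ) := by
    rw [card_eq_sum_card_fiberwise (f := fun t : ℤ × ℤ => t.2 - 2 * t.1)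
      (t := Icc (-((3 * X : ℕ) : ℤ)) ((3 * X : ℕ) : ℤ))]
    · push_cast
      rfl
    · intro t ht
      have := hbox t (mem_coe.1 ht)
      rw [mem_coe, mem_Icc]
      push_cast
      constructor <;> omega
  -- the case `w = 0`
  have h0 : ((T.filter (fun t => t.2 - 2 * t.1 = 0)).card : ℝ) ≤
      2 * (X : ℝ) ^ 2 * Q8 s v u / (Real.log y) ^ 7 := by
    rcases (T.filter (fun t => t.2 - 2 * t.1 = 0)).eq_empty_or_nonempty with he | ⟨t0, ht0⟩
    · rw [he, card_empty, Nat.cast_zero]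
      positivity
    · rw [mem_filter] at ht0
      have g := hgood t0 ht0.1
      have hb : t0.2 = 0 + 2 * t0.1 := by linarith [ht0.2]
      rw [hb] at g
      have hnone : ∀ p : ℕ, p.Prime → ∀ i, ¬ p ∣ s i * v i * u i := by
        intro p hp i hd
        have f := g.fall hzy hu hp hd
        exact not_dvd_w hp (by omega) g.hc f.2.1 (dvd_zero _)
      have hone : ∀ n : ℕ, (∀ p : ℕ, p.Prime → ¬ p ∣ n) → n = 1 := by
        intro n hn
        by_contra h1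
        obtain ⟨p, hp, hpn⟩ := Nat.exists_prime_and_dvd h1
        exact hn p hp hpn
      have es : ∀ i, s i = 1 := fun i => hone _ fun p hp hd =>
        hnone p hp i ((hd.mul_right _).mul_right _)
      have ev : ∀ i, v i = 1 := fun i => hone _ fun p hp hd =>
        hnone p hp i ((hd.mul_left _).mul_right _)
      have eu : ∀ i, u i = 1 := fun i => hone _ fun p hp hd => hnone p hp i (hd.mul_left _)
      have hQ1 : Q8 s v u = 1 := by
        unfold Q8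
        simp [es, ev, eu, gp_one8]
      rw [hQ1, mul_one]
      have hc2 : ((T.filter (fun t => t.2 - 2 * t.1 = 0)).card : ℝ) ≤ 2 := by
        have h1 : T.filter (fun t => t.2 - 2 * t.1 = 0) ⊆ {((1 : ℤ), (2 : ℤ)), (-1, -2)} := by
          intro t ht
          rw [mem_filter] at ht
          have hc := (hgood t ht.1).hc
          have hb' : t.2 = 2 * t.1 := by linarith [ht.2]
          rw [hb'] at hc
          have hunit : IsUnit t.1 := hc.isUnit_of_dvd' dvd_rfl (Dvd.intro_left _ rfl)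
          rw [mem_insert, mem_singleton]
          rcases Int.isUnit_iff.1 hunit with h | h
          · left
            exact Prod.ext h (by rw [hb', h]; norm_num)
          · right
            exact Prod.ext h (by rw [hb', h]; norm_num)
        exact_mod_cast (card_le_card h1).trans card_le_two
      refine hc2.trans ?_
      rw [le_div_iff₀ hlog7]
      have h1 : Real.log y ≤ y := Real.log_le_self (Nat.cast_nonneg y)
      have h2 : (Real.log y) ^ 7 ≤ (y : ℝ) ^ 7 := pow_le_pow_left₀ hlog.le h1 7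
      have h3 : (y : ℝ) ^ 7 ≤ X := by exact_mod_cast hy7
      have h4 : (1 : ℝ) ≤ X := by exact_mod_cast hX1
      nlinarith
  -- the case `w ≠ 0`
  have h1 : ∀ w : ℤ, w ≠ 0 → ((T.filter (fun t => t.2 - 2 * t.1 = w)).card : ℝ) ≤
      (C * (2 * X + 1 : ℕ) * Real.exp (-∑ p ∈ PS z y, rho8 p / p) * Q8 s v u) *
        ∏ p ∈ w.natAbs.primeFactors.filter (fun p => z < p), g10 p := by
    intro w hw
    have h2 := fib8 (X := X) hC hz hzy (hSV (2 * X + 1) y hy1 hzy (by omega)) hs hv hu hsvu hw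
    refine le_trans ?_ (h2.trans (le_of_eq (by ring)))
    rw [Nat.cast_le]
    apply card_le_card_of_injOn (fun t : ℤ × ℤ => (t.1 + (X + 1)).toNat)
    · intro t ht
      have ht' : t ∈ T ∧ t.2 - 2 * t.1 = w := mem_filter.1 (mem_coe.1 ht)
      have hb := hbox t ht'.1
      have g := hgood t ht'.1
      have h3 : (((t.1 + (X + 1)).toNat : ℕ) : ℤ) = t.1 + (X + 1) :=
        Int.toNat_of_nonneg (by omega)
      have h5 : 1 ≤ (t.1 + (X + 1)).toNat ∧ (t.1 + (X + 1)).toNat ≤ 2 * X + 1 := by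
        have := hb.1
        omega
      refine mem_coe.2 (mem_filter.2 ⟨mem_Icc.2 h5, ?_⟩)
      rw [h3, add_sub_cancel_right]
      have h4 : w + 2 * t.1 = t.2 := by linarith [ht'.2]
      rw [h4]
      exact g
    · intro t ht t' ht' heq
      have e1 := mem_filter.1 (mem_coe.1 ht)
      have e2 := mem_filter.1 (mem_coe.1 ht')
      have b1 := hbox t e1.1
      have b2 := hbox t' e2.1
      simp only at heq
      have h3 : t.1 = t'.1 := by omega
      refine Prod.ext h3 ?_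
      have := e1.2
      have := e2.2
      omega
  -- the sum
  have hsum : ∑ w ∈ (Icc (-((3 * X : ℕ) : ℤ)) ((3 * X : ℕ) : ℤ)).filter (fun w => w ≠ 0),
      (∏ p ∈ w.natAbs.primeFactors.filter (fun p => z < p), g10 p) ≤
      2 * (CA * ((3 * X : ℕ) : ℝ)) := by
    refine (sum_abs (fun n => ∏ p ∈ n.primeFactors.filter (fun p => z < p), g10 p)
      (fun n => prod_nonneg fun p hp => zero_le_one.trans
        (g10_ge (by have := (mem_filter.1 hp).2; omega))) (3 * X)).trans ?_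
    exact mul_le_mul_of_nonneg_left (hav (3 * X)) (by norm_num)
  have hsplit : (T.card : ℝ) = ((T.filter (fun t => t.2 - 2 * t.1 = 0)).card : ℝ) +
      ∑ w ∈ (Icc (-((3 * X : ℕ) : ℤ)) ((3 * X : ℕ) : ℤ)).filter (fun w => w ≠ 0),
        ((T.filter (fun t => t.2 - 2 * t.1 = w)).card : ℝ) := by
    rw [hcard, ← sum_filter_add_sum_filter_not _ (fun w : ℤ => w = 0)]
    congr 1
    rw [filter_eq', if_pos (by rw [mem_Icc]; omega), sum_singleton]
  have hD0 : 0 ≤ C * ((2 * X + 1 : ℕ) : ℝ) * Real.exp (-∑ p ∈ PS z y, rho8 p / p) *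
      Q8 s v u := by positivity
  have hmain : ∑ w ∈ (Icc (-((3 * X : ℕ) : ℤ)) ((3 * X : ℕ) : ℤ)).filter (fun w => w ≠ 0),
        ((T.filter (fun t => t.2 - 2 * t.1 = w)).card : ℝ) ≤
      (C * ((2 * X + 1 : ℕ) : ℝ) * Real.exp (-∑ p ∈ PS z y, rho8 p / p) * Q8 s v u) *
        (2 * (CA * ((3 * X : ℕ) : ℝ))) := by
    refine (sum_le_sum fun w hw => h1 w (mem_filter.1 hw).2).trans ?_
    rw [← mul_sum]
    exact mul_le_mul_of_nonneg_left hsum hD0
  have hEy := hE y hy3 hzy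
  have hfin : (C * ((2 * X + 1 : ℕ) : ℝ) * Real.exp (-∑ p ∈ PS z y, rho8 p / p) * Q8 s v u) *
        (2 * (CA * ((3 * X : ℕ) : ℝ))) ≤
      (C * (3 * X) * (CE / (Real.log y) ^ 7) * Q8 s v u) * (2 * (CA * (3 * X))) := by
    have h2 : ((2 * X + 1 : ℕ) : ℝ) ≤ 3 * X := by
      have : (1 : ℝ) ≤ X := by exact_mod_cast hX1
      push_cast
      linarith
    have h3 : ((3 * X : ℕ) : ℝ) = 3 * X := by push_cast; rfl
    rw [h3]
    have h4 : 0 ≤ Real.exp (-∑ p ∈ PS z y, rho8 p / p) := (Real.exp_pos _).le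
    gcongr
  rw [hsplit]
  have htot := add_le_add h0 (hmain.trans hfin)
  refine htot.trans (le_of_eq ?_)
  have hQd : (C * 3 * CE * (2 * (CA * 3)) + 2) * (X : ℝ) ^ 2 * (∏ i, gp (rr8 i) 10 (s i)) *
      (∏ i, gp (rr8 i) 10 (v i) / v i) * (∏ i, 2 ^ (u i).primeFactors.card / (u i : ℝ)) =
      (C * 3 * CE * (2 * (CA * 3)) + 2) * (X : ℝ) ^ 2 * Q8 s v u := by
    unfold Q8
    ring
  rw [hQd]
  field_simp
  ring

end Pool.Agent.Y237.Z8
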