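import Pool.Agent.Y237.Z8.Cnt

/-!
# Project Z8 (helper723): the count for a fixed `w = b - 2 a`, `a` in an arbitrary interval
-/

set_option autoImplicit false
set_option linter.all false

namespace Pool.Agent.Y237.Z8

open Finset Pool.Agent.W262.RK Pool.Agent.W307.RT Pool.Agent.TH841.PT Pool.Agent.Y723.Z8
open Pool.Agent.W372.RK2 (sq_pow_dvd)
open Pool.Agent.W29.RT (dvd_S1 dvd_S2)

variable {z y Y : ℕ} {s v u : Fin 7 × Bool → ℕ} {a b : ℤ}

open Classical in
/-- the count for a fixed `w = b - 2 a` -/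
lemma fibN {C : ℝ} (hC : 0 ≤ C) {L : ℕ} (N : ℤ) (hz : 22 ≤ z) (hzy : z < y)
    (hSV : ∀ (Z : ℕ → ℕ → Prop) (ν : ℕ → ℕ), (∀ p ∈ PS z y, ∀ n, Z p n ↔ Z p (n % p)) →
      (∀ p ∈ PS z y, ((range p).filter (fun n => Z p n)).card = ν p ∧ ν p ≤ 10) →
      ∀ m r : ℕ, 1 ≤ m → m ^ 4 ≤ L →
      (((Icc 1 (L)).filter (fun t : ℕ => t ≡ r [MOD m] ∧
        ∀ p ∈ PS z y, ¬ p ∣ m → ¬ Z p t)).card : ℝ) ≤
      C * (L / m) *
        Real.exp (-∑ p ∈ (PS z y).filter (fun p => ¬ p ∣ m), (ν p : ℝ) / p))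
    (hs : s ∈ Tup (Fin 7 × Bool) z y) (hv : v ∈ Tup (Fin 7 × Bool) z y)
    (hu : u ∈ Tup (Fin 7 × Bool) y Y) (hsvu : (∏ i, s i * v i * u i) ^ 8 ≤ L) {w : ℤ}
    (hw0 : w ≠ 0) :
    (((Icc 1 (L)).filter (fun n : ℕ => Gd8 z y s v u ((n : ℤ) - N)
      (w + 2 * ((n : ℤ) - N)))).card : ℝ) ≤
      C * L * Real.exp (-∑ p ∈ PS z y, rho8 p / p) *
        (∏ p ∈ w.natAbs.primeFactors.filter (fun p => z < p), g10 p) * Q8 s v u := by
  have hs' := (Pool.Agent.W372.RK2.mem_Tup'.1 hs).1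
  have hv' := (Pool.Agent.W372.RK2.mem_Tup'.1 hv).1
  have hu' := (Pool.Agent.W372.RK2.mem_Tup'.1 hu).1
  set T := (Icc 1 (L)).filter (fun n : ℕ => Gd8 z y s v u ((n : ℤ) - N)
      (w + 2 * ((n : ℤ) - N))) with hT
  have hgood : ∀ n ∈ T, Gd8 z y s v u ((n : ℤ) - N) (w + 2 * ((n : ℤ) - N)) :=
    fun n hn => (mem_filter.1 hn).2
  have hQ : 0 ≤ Q8 s v u := Q8_nonneg hz hs hv
  have hW0 : 0 ≤ ∏ p ∈ w.natAbs.primeFactors.filter (fun p => z < p), g10 p :=
    prod_nonneg fun p hp => zero_le_one.trans (g10_ge (by have := (mem_filter.1 hp).2; omega))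
  rcases T.eq_empty_or_nonempty with hTe | ⟨n0, hn0⟩
  · rw [hTe, card_empty, Nat.cast_zero]
    positivity
  have g0 := hgood n0 hn0
  set m := ∏ i, s i * v i ^ 2 * u i with hm
  have hs1 : ∀ i, 0 < s i := fun i => dv_pos (hs' i)
  have hv1 : ∀ i, 0 < v i := fun i => dv_pos (hv' i)
  have hu1 : ∀ i, 0 < u i := fun i => dv_pos (hu' i)
  have hm1 : 1 ≤ m := Nat.succ_le_of_lt (prod_pos fun i _ =>
    Nat.mul_pos (Nat.mul_pos (hs1 i) (pow_pos (hv1 i) 2)) (hu1 i))
  have hm4 : m ^ 4 ≤ L := by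
    have h1 : m ≤ (∏ i, s i * v i * u i) ^ 2 := by
      rw [← prod_pow]
      apply prod_le_prod'
      intro i _
      have a1 := hs1 i
      have a2 := hu1 i
      calc s i * v i ^ 2 * u i ≤ (s i * s i) * v i ^ 2 * (u i * u i) := by
            apply Nat.mul_le_mul
            · apply Nat.mul_le_mul_right
              nlinarith
            · nlinarith
        _ = (s i * v i * u i) ^ 2 := by ring
    calc m ^ 4 ≤ ((∏ i, s i * v i * u i) ^ 2) ^ 4 := Nat.pow_le_pow_left h1 4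
      _ = (∏ i, s i * v i * u i) ^ 8 := by rw [← pow_mul]
      _ ≤ L := hsvu
  -- the sieve
  have hSVm := hSV (Z8 N w) (nu8 N w) (fun p _ n => Z8_per N w p n)
    (fun p hp => ⟨rfl, nu8_le (mem_PS.1 hp).2 (by have := (mem_PS.1 hp).1.1; omega) N w⟩) m
  set B : ℝ := C * (L / m) *
    Real.exp (-∑ p ∈ (PS z y).filter (fun p => ¬ p ∣ m), (nu8 N w p : ℝ) / p) with hB
  have hB0 : 0 ≤ B := mul_nonneg (mul_nonneg hC (div_nonneg (Nat.cast_nonneg _)
    (Nat.cast_nonneg _))) (Real.exp_pos _).le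
  -- the map
  set P := ∏ i, s i * v i * u i with hP
  have hP0 : P ≠ 0 := (prod_pos fun i _ =>
    Nat.mul_pos (Nat.mul_pos (hs1 i) (hv1 i)) (hu1 i)).ne'
  let R : ℕ → Finset ℕ := fun p => (range p).filter (fun n : ℕ => ∃ i, p ∣ s i * v i * u i ∧
    (p : ℤ) ∣ F8 ((n : ℤ) - N) (w + 2 * ((n : ℤ) - N)) i.1)
  let Phi : ℕ → (P.primeFactors → ℕ) := fun n p => n % p
  have hex : ∀ p : ℕ, p.Prime → p ∣ P → ∃ i, p ∣ s i * v i * u i := by
    intro p hp h
    obtain ⟨i, -, hi⟩ := (hp.prime.dvd_finsetProd_iff _).1 h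
    exact ⟨i, hi⟩
  have hmaps : ∀ n ∈ T, Phi n ∈ Fintype.piFinset (fun p : P.primeFactors => R p) := by
    intro n hn
    rw [Fintype.mem_piFinset]
    intro p
    have hp := Nat.prime_of_mem_primeFactors p.2
    obtain ⟨i, hi⟩ := hex p hp (Nat.dvd_of_mem_primeFactors p.2)
    refine mem_filter.2 ⟨mem_range.2 (Nat.mod_lt _ hp.pos), i, hi, ?_⟩
    exact (per8 w _ _ (mod8 N p n) i.1).1 ((hgood n hn).fall hzy hu hp hi).2.1
  have hfib : ∀ φ, ((T.filter (fun n : ℕ => Phi n = φ)).card : ℝ) ≤ B := by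
    intro φ
    rcases (T.filter (fun n : ℕ => Phi n = φ)).eq_empty_or_nonempty with he | ⟨r, hr⟩
    · rw [he, card_empty, Nat.cast_zero]
      exact hB0
    · refine le_trans ?_ (hSVm r hm1 hm4)
      rw [Nat.cast_le]
      apply card_le_card
      intro t ht
      rw [mem_filter] at ht hr
      have g := hgood t ht.1
      have g' := hgood r hr.1
      have htX : t ∈ Icc 1 (L) := (mem_filter.1 ht.1).1
      have heq : Phi t = Phi r := ht.2.trans hr.2.symm
      refine mem_flt htX ⟨?_, ?_⟩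
      · have h1 := cong8 (by omega) hzy hs hv hu g g' (fun p hp hpd => by
          have h2 : t % p = r % p := congrFun heq ⟨p, Nat.mem_primeFactors.2 ⟨hp, hpd, hP0⟩⟩
          have h3 : ((t : ℤ) - N) - ((r : ℤ) - N) = (t : ℤ) - r := by ring
          rw [h3]
          exact (Nat.modEq_iff_dvd.1 h2.symm))
        rw [← hm] at h1
        have h3 : ((t : ℤ) - N) - ((r : ℤ) - N) = (t : ℤ) - r := by ring
        rw [h3] at h1
        exact ((Nat.modEq_iff_dvd.2 h1)).symm
      · rintro p hpP hpm ⟨j, hj⟩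
        have hp := (mem_PS.1 hpP).2
        apply hpm
        rw [hm]
        refine Dvd.dvd.trans ?_ (dvd_prod_of_mem _ (mem_univ (j, ty8 j p)))
        rcases g.back hp hpP hj with h | h
        · exact (h.mul_right _).mul_right _
        · exact ((h.pow two_ne_zero).mul_left _).mul_right _
  have hcard : (T.card : ℝ) ≤ (∏ p ∈ P.primeFactors, ((R p).card : ℝ)) * B := by
    rw [card_eq_sum_card_fiberwise (f := Phi)
      (t := Fintype.piFinset (fun p : P.primeFactors => R p)) hmaps]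
    rw [Nat.cast_sum]
    refine (sum_le_sum fun φ _ => hfib φ).trans ?_
    rw [sum_const, nsmul_eq_mul, Fintype.card_piFinset,
      prod_coe_sort P.primeFactors (fun p => (R p).card)]
    push_cast
    exact le_rfl
  -- the prime factors
  have hPf : P.primeFactors = univ.biUnion (fun i => (s i * v i * u i).primeFactors) := by
    ext p
    rw [mem_biUnion, Nat.mem_primeFactors]
    constructor
    · rintro ⟨hp, hd, -⟩
      obtain ⟨i, hi⟩ := hex p hp hd
      exact ⟨i, mem_univ i, Nat.mem_primeFactors.2 ⟨hp, hi,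
        (Nat.mul_pos (Nat.mul_pos (hs1 i) (hv1 i)) (hu1 i)).ne'⟩⟩
    · rintro ⟨i, -, hi⟩
      have hi' := Nat.mem_primeFactors.1 hi
      exact ⟨hi'.1, hi'.2.1.trans (dvd_prod_of_mem (fun i => s i * v i * u i) (mem_univ i)), hP0⟩
  have dsv : ∀ i, Disjoint (s i).primeFactors (v i).primeFactors := by
    intro i
    rw [disjoint_left]
    intro p h1 h2
    have hp := Nat.prime_of_mem_primeFactors h1
    exact (g0.fs hp (Nat.dvd_of_mem_primeFactors h1)).2.2.1
      (g0.fv hp (Nat.dvd_of_mem_primeFactors h2)).2.1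
  have dsu : ∀ i, Disjoint ((s i).primeFactors ∪ (v i).primeFactors) (u i).primeFactors := by
    intro i
    rw [disjoint_left]
    intro p h1 h2
    have hp := Nat.prime_of_mem_primeFactors h2
    have h3 := (g0.fu hzy hu hp (Nat.dvd_of_mem_primeFactors h2)).1
    rcases mem_union.1 h1 with h1 | h1
    · have := (mem_PS.1 (g0.fs hp (Nat.dvd_of_mem_primeFactors h1)).1).1.2
      omega
    · have := (mem_PS.1 (g0.fv hp (Nat.dvd_of_mem_primeFactors h1)).1).1.2
      omega
  have hR : ∀ i, ∀ p ∈ (s i * v i * u i).primeFactors, ((R p).card : ℝ) = rr8 i p := by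
    intro i p hp
    have hp' := Nat.mem_primeFactors.1 hp
    have f := g0.fall hzy hu hp'.1 hp'.2.1
    have hfact : Fact p.Prime := ⟨hp'.1⟩
    have h7 : 7 < p := by omega
    have hw := not_dvd_w hp'.1 h7 g0.hc f.2.1
    have h1 : R p = (range p).filter (fun n : ℕ =>
        (p : ℤ) ∣ F8 ((n : ℤ) - N) (w + 2 * ((n : ℤ) - N)) i.1) := by
      refine filter_congr fun n _ => ⟨?_, fun h => ⟨i, hp'.2.1, h⟩⟩
      rintro ⟨l, hl, h⟩
      rwa [g0.uniq (by omega) hzy hu hp'.1 hp'.2.1 hl]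
    have hw' : (w : ZMod p) ≠ 0 := by
      rwa [Ne, ZMod.intCast_zmod_eq_zero_iff_dvd]
    rw [h1]
    have h2 := card_rt (p := p) N w i.1
    have h3 : ((range p).filter (fun n : ℕ =>
        (p : ℤ) ∣ F8 ((n : ℤ) - N) (w + 2 * ((n : ℤ) - N)) i.1)).card = nr p (w : ZMod p) i.1 := by
      rw [← h2]
    rw [h3, nr_eq h7 hw', f.2.2]
  have hprodR : ∏ p ∈ P.primeFactors, ((R p).card : ℝ) ≤
      ∏ i, ((∏ p ∈ (s i).primeFactors, rr8 i p) * (∏ p ∈ (v i).primeFactors, rr8 i p) *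
        2 ^ (u i).primeFactors.card) := by
    rw [hPf, prod_biUnion]
    · refine prod_le_prod (fun _ _ => prod_nonneg fun _ _ => Nat.cast_nonneg _) fun i _ => ?_
      rw [prod_congr rfl (hR i)]
      rw [Nat.primeFactors_mul (Nat.mul_pos (hs1 i) (hv1 i)).ne' (hu1 i).ne',
        Nat.primeFactors_mul (hs1 i).ne' (hv1 i).ne', prod_union (dsu i), prod_union (dsv i)]
      apply mul_le_mul_of_nonneg_left
      · rw [← prod_const]
        exact prod_le_prod (fun _ _ => rr8_nonneg _ _) fun p _ => rr8_le i p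
      · exact mul_nonneg (prod_nonneg fun _ _ => rr8_nonneg _ _)
          (prod_nonneg fun _ _ => rr8_nonneg _ _)
    · intro i _ l _ hil
      rw [Function.onFun, Finset.disjoint_left]
      intro p h1 h2
      have hp := Nat.prime_of_mem_primeFactors h1
      exact hil (g0.uniq (by omega) hzy hu hp (Nat.dvd_of_mem_primeFactors h1)
        (Nat.dvd_of_mem_primeFactors h2))
  -- the exponential
  have hexp := exp_part (m := m) (y := y) (by omega : 10 ≤ z) hw0 (nu8 N w) (fun p hp hw =>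
    nu8_eq (mem_PS.1 hp).2 (by have := (mem_PS.1 hp).1.1; omega) N hw)
  have hmf : (PS z y).filter (fun p => p ∣ m) =
      univ.biUnion (fun i => (s i).primeFactors ∪ (v i).primeFactors) := by
    ext p
    rw [mem_filter, mem_biUnion]
    constructor
    · rintro ⟨hpP, hpm⟩
      have hp := (mem_PS.1 hpP).2
      obtain ⟨i, -, hi⟩ := (hp.prime.dvd_finsetProd_iff _).1 hpm
      refine ⟨i, mem_univ i, mem_union.2 ?_⟩
      rcases hp.dvd_mul.1 hi with h | h
      · rcases hp.dvd_mul.1 h with h | h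
        · exact Or.inl (Nat.mem_primeFactors.2 ⟨hp, h, (hs1 i).ne'⟩)
        · exact Or.inr (Nat.mem_primeFactors.2 ⟨hp, hp.dvd_of_dvd_pow h, (hv1 i).ne'⟩)
      · exfalso
        have h1 := (g0.fu hzy hu hp h).1
        have h2 := (mem_PS.1 hpP).1.2
        omega
    · rintro ⟨i, -, hi⟩
      rcases mem_union.1 hi with h | h
      · have hp := Nat.prime_of_mem_primeFactors h
        have hd := Nat.dvd_of_mem_primeFactors h
        refine ⟨(g0.fs hp hd).1, Dvd.dvd.trans ?_ (dvd_prod_of_mem _ (mem_univ i))⟩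
        exact (hd.mul_right _).mul_right _
      · have hp := Nat.prime_of_mem_primeFactors h
        have hd := Nat.dvd_of_mem_primeFactors h
        refine ⟨(g0.fv hp hd).1, Dvd.dvd.trans ?_ (dvd_prod_of_mem _ (mem_univ i))⟩
        exact ((hd.pow two_ne_zero).mul_left _).mul_right _
  have hprodm : ∏ p ∈ (PS z y).filter (fun p => p ∣ m), g10 p =
      ∏ i, ((∏ p ∈ (s i).primeFactors, g10 p) * ∏ p ∈ (v i).primeFactors, g10 p) := by
    rw [hmf, prod_biUnion]
    · exact prod_congr rfl fun i _ => prod_union (dsv i)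
    · intro i _ l _ hil
      rw [Function.onFun, Finset.disjoint_left]
      intro p h1 h2
      have hin : ∀ k, p ∈ (s k).primeFactors ∪ (v k).primeFactors → p ∣ s k * v k * u k := by
        intro k hk
        rcases mem_union.1 hk with h | h
        · exact ((Nat.dvd_of_mem_primeFactors h).mul_right _).mul_right _
        · exact ((Nat.dvd_of_mem_primeFactors h).mul_left _).mul_right _
      have hp : p.Prime := by
        rcases mem_union.1 h1 with h | h <;> exact Nat.prime_of_mem_primeFactors h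
      exact hil (g0.uniq (by omega) hzy hu hp (hin i h1) (hin l h2))
  rw [hprodm] at hexp
  -- conclusion
  have hA0 : 0 ≤ ∏ i, ((∏ p ∈ (s i).primeFactors, rr8 i p) *
      (∏ p ∈ (v i).primeFactors, rr8 i p) * (2 : ℝ) ^ (u i).primeFactors.card) :=
    prod_nonneg fun i _ => mul_nonneg (mul_nonneg (prod_nonneg fun _ _ => rr8_nonneg _ _)
      (prod_nonneg fun _ _ => rr8_nonneg _ _)) (by positivity)
  have hCX : 0 ≤ C * ((L : ℝ) / m) :=
    mul_nonneg hC (div_nonneg (Nat.cast_nonneg _) (Nat.cast_nonneg _))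
  have hBle := mul_le_mul_of_nonneg_left hexp hCX
  have hfin := mul_le_mul hprodR hBle hB0 hA0
  refine (hcard.trans hfin).trans (le_of_eq ?_)
  have hkey : Q8 s v u = (∏ i, ((∏ p ∈ (s i).primeFactors, rr8 i p) *
      (∏ p ∈ (v i).primeFactors, rr8 i p) * (2 : ℝ) ^ (u i).primeFactors.card)) *
      (∏ i, ((∏ p ∈ (s i).primeFactors, g10 p) * ∏ p ∈ (v i).primeFactors, g10 p)) / m := by
    unfold Q8
    rw [hm, Nat.cast_prod, ← prod_mul_distrib, ← prod_mul_distrib, ← prod_mul_distrib,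
      ← prod_div_distrib]
    refine prod_congr rfl fun i _ => ?_
    have e1 := gp_mul i (hs' i)
    have e2 := gp_mul i (hv' i)
    have n1 : (s i : ℝ) ≠ 0 := by exact_mod_cast (hs1 i).ne'
    have n2 : (v i : ℝ) ≠ 0 := by exact_mod_cast (hv1 i).ne'
    have n3 : (u i : ℝ) ≠ 0 := by exact_mod_cast (hu1 i).ne'
    have e3 : ∀ A1 A2 B1 B2 E : ℝ, A1 * A2 * E * (B1 * B2) = (A1 * B1) * (A2 * B2) * E := by
      intro A1 A2 B1 B2 E
      ring
    rw [e3, e1, e2]
    push_cast
    field_simp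
  rw [hkey]
  ring


end Pool.Agent.Y237.Z8
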