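import Pool.Agent.Y723.Z8.Stm

/-!
# Project Z8 (helper723): arithmetic of the seven forms
-/

set_option autoImplicit false
set_option linter.unusedSimpArgs false

namespace Pool.Agent.Y237.Z8

open Finset Pool.Agent.W262.RK Pool.Agent.Y723.Z8

/-- the seven forms over a commutative ring -/
def Fr {R : Type} [CommRing R] (a b : R) (j : Fin 7) : R :=
  ![a, b, a - b, a + b, a ^ 2 + b ^ 2, a ^ 2 - 2 * a * b - b ^ 2, a ^ 2 + 2 * a * b - b ^ 2] j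

lemma Fr_int (a b : ℤ) (j : Fin 7) : Fr a b j = F8 a b j := rfl

lemma Fr_cast {R : Type} [CommRing R] (a b : ℤ) (j : Fin 7) :
    ((F8 a b j : ℤ) : R) = Fr (a : R) (b : R) j := by
  fin_cases j
  · rfl
  · rfl
  · exact Int.cast_sub a b
  · exact Int.cast_add a b
  · show ((a ^ 2 + b ^ 2 : ℤ) : R) = (a : R) ^ 2 + (b : R) ^ 2
    push_cast; rfl
  · show ((a ^ 2 - 2 * a * b - b ^ 2 : ℤ) : R) = (a : R) ^ 2 - 2 * a * b - (b : R) ^ 2
    push_cast; rfl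
  · show ((a ^ 2 + 2 * a * b - b ^ 2 : ℤ) : R) = (a : R) ^ 2 + 2 * a * b - (b : R) ^ 2
    push_cast; rfl

/-- the resultants are powers of two -/
lemma cert {R : Type} [CommRing R] (a b : R) (j l : Fin 7) (h : j ≠ l) : ∃ x y x' y' : R,
    16 * a ^ 3 = x * Fr a b j + y * Fr a b l ∧
      16 * b ^ 3 = x' * Fr a b j + y' * Fr a b l := by
  fin_cases j <;> fin_cases l
  · exact absurd rfl h
  · exact ⟨16 * a ^ 2, 0,
      0, 16 * b ^ 2,
      by show 16 * a ^ 3 = (16 * a ^ 2) * (a) + (0) * (b); ring,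
      by show 16 * b ^ 3 = (0) * (a) + (16 * b ^ 2) * (b); ring⟩
  · exact ⟨16 * a ^ 2, 0,
      16 * b ^ 2, (-16) * b ^ 2,
      by show 16 * a ^ 3 = (16 * a ^ 2) * (a) + (0) * (a - b); ring,
      by show 16 * b ^ 3 = (16 * b ^ 2) * (a) + ((-16) * b ^ 2) * (a - b); ring⟩
  · exact ⟨16 * a ^ 2, 0,
      (-16) * b ^ 2, 16 * b ^ 2,
      by show 16 * a ^ 3 = (16 * a ^ 2) * (a) + (0) * (a + b); ring,
      by show 16 * b ^ 3 = ((-16) * b ^ 2) * (a) + (16 * b ^ 2) * (a + b); ring⟩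
  · exact ⟨16 * a ^ 2, 0,
      (-16) * a * b, 16 * b,
      by show 16 * a ^ 3 = (16 * a ^ 2) * (a) + (0) * (a ^ 2 + b ^ 2); ring,
      by show 16 * b ^ 3 = ((-16) * a * b) * (a) + (16 * b) * (a ^ 2 + b ^ 2); ring⟩
  · exact ⟨16 * a ^ 2, 0,
      16 * a * b + (-32) * b ^ 2, (-16) * b,
      by show 16 * a ^ 3 = (16 * a ^ 2) * (a) + (0) * (a ^ 2 - 2 * a * b - b ^ 2); ring,
      by show 16 * b ^ 3 = (16 * a * b + (-32) * b ^ 2) * (a) + ((-16) * b) * (a ^ 2 - 2 * a * b - b ^ 2); ring⟩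
  · exact ⟨16 * a ^ 2, 0,
      16 * a * b + 32 * b ^ 2, (-16) * b,
      by show 16 * a ^ 3 = (16 * a ^ 2) * (a) + (0) * (a ^ 2 + 2 * a * b - b ^ 2); ring,
      by show 16 * b ^ 3 = (16 * a * b + 32 * b ^ 2) * (a) + ((-16) * b) * (a ^ 2 + 2 * a * b - b ^ 2); ring⟩
  · exact ⟨0, 16 * a ^ 2,
      16 * b ^ 2, 0,
      by show 16 * a ^ 3 = (0) * (b) + (16 * a ^ 2) * (a); ring,
      by show 16 * b ^ 3 = (16 * b ^ 2) * (b) + (0) * (a); ring⟩
  · exact absurd rfl h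
  · exact ⟨16 * a ^ 2, 16 * a ^ 2,
      16 * b ^ 2, 0,
      by show 16 * a ^ 3 = (16 * a ^ 2) * (b) + (16 * a ^ 2) * (a - b); ring,
      by show 16 * b ^ 3 = (16 * b ^ 2) * (b) + (0) * (a - b); ring⟩
  · exact ⟨(-16) * a ^ 2, 16 * a ^ 2,
      16 * b ^ 2, 0,
      by show 16 * a ^ 3 = ((-16) * a ^ 2) * (b) + (16 * a ^ 2) * (a + b); ring,
      by show 16 * b ^ 3 = (16 * b ^ 2) * (b) + (0) * (a + b); ring⟩
  · exact ⟨(-16) * a * b, 16 * a,
      16 * b ^ 2, 0,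
      by show 16 * a ^ 3 = ((-16) * a * b) * (b) + (16 * a) * (a ^ 2 + b ^ 2); ring,
      by show 16 * b ^ 3 = (16 * b ^ 2) * (b) + (0) * (a ^ 2 + b ^ 2); ring⟩
  · exact ⟨32 * a ^ 2 + 16 * a * b, 16 * a,
      16 * b ^ 2, 0,
      by show 16 * a ^ 3 = (32 * a ^ 2 + 16 * a * b) * (b) + (16 * a) * (a ^ 2 - 2 * a * b - b ^ 2); ring,
      by show 16 * b ^ 3 = (16 * b ^ 2) * (b) + (0) * (a ^ 2 - 2 * a * b - b ^ 2); ring⟩
  · exact ⟨(-32) * a ^ 2 + 16 * a * b, 16 * a,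
      16 * b ^ 2, 0,
      by show 16 * a ^ 3 = ((-32) * a ^ 2 + 16 * a * b) * (b) + (16 * a) * (a ^ 2 + 2 * a * b - b ^ 2); ring,
      by show 16 * b ^ 3 = (16 * b ^ 2) * (b) + (0) * (a ^ 2 + 2 * a * b - b ^ 2); ring⟩
  · exact ⟨0, 16 * a ^ 2,
      (-16) * a ^ 2 + (-16) * a * b + (-16) * b ^ 2, 16 * a ^ 2,
      by show 16 * a ^ 3 = (0) * (a - b) + (16 * a ^ 2) * (a); ring,
      by show 16 * b ^ 3 = ((-16) * a ^ 2 + (-16) * a * b + (-16) * b ^ 2) * (a - b) + (16 * a ^ 2) * (a); ring⟩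
  · exact ⟨16 * a ^ 2, 16 * a ^ 2,
      (-16) * a * b + (-16) * b ^ 2, 16 * a ^ 2,
      by show 16 * a ^ 3 = (16 * a ^ 2) * (a - b) + (16 * a ^ 2) * (b); ring,
      by show 16 * b ^ 3 = ((-16) * a * b + (-16) * b ^ 2) * (a - b) + (16 * a ^ 2) * (b); ring⟩
  · exact absurd rfl h
  · exact ⟨8 * a ^ 2, 8 * a ^ 2,
      (-8) * a ^ 2 + (-16) * a * b + (-16) * b ^ 2, 8 * a ^ 2,
      by show 16 * a ^ 3 = (8 * a ^ 2) * (a - b) + (8 * a ^ 2) * (a + b); ring,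
      by show 16 * b ^ 3 = ((-8) * a ^ 2 + (-16) * a * b + (-16) * b ^ 2) * (a - b) + (8 * a ^ 2) * (a + b); ring⟩
  · exact ⟨8 * a ^ 2 + 8 * a * b, 8 * a,
      (-8) * a ^ 2 + (-8) * a * b + (-16) * b ^ 2, 8 * a,
      by show 16 * a ^ 3 = (8 * a ^ 2 + 8 * a * b) * (a - b) + (8 * a) * (a ^ 2 + b ^ 2); ring,
      by show 16 * b ^ 3 = ((-8) * a ^ 2 + (-8) * a * b + (-16) * b ^ 2) * (a - b) + (8 * a) * (a ^ 2 + b ^ 2); ring⟩
  · exact ⟨24 * a ^ 2 + 8 * a * b, (-8) * a,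
      8 * a ^ 2 + (-8) * a * b + (-16) * b ^ 2, (-8) * a,
      by show 16 * a ^ 3 = (24 * a ^ 2 + 8 * a * b) * (a - b) + ((-8) * a) * (a ^ 2 - 2 * a * b - b ^ 2); ring,
      by show 16 * b ^ 3 = (8 * a ^ 2 + (-8) * a * b + (-16) * b ^ 2) * (a - b) + ((-8) * a) * (a ^ 2 - 2 * a * b - b ^ 2); ring⟩
  · exact ⟨8 * a ^ 2 + (-8) * a * b, 8 * a,
      (-8) * a ^ 2 + (-24) * a * b + (-16) * b ^ 2, 8 * a,
      by show 16 * a ^ 3 = (8 * a ^ 2 + (-8) * a * b) * (a - b) + (8 * a) * (a ^ 2 + 2 * a * b - b ^ 2); ring,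
      by show 16 * b ^ 3 = ((-8) * a ^ 2 + (-24) * a * b + (-16) * b ^ 2) * (a - b) + (8 * a) * (a ^ 2 + 2 * a * b - b ^ 2); ring⟩
  · exact ⟨0, 16 * a ^ 2,
      16 * a ^ 2 + (-16) * a * b + 16 * b ^ 2, (-16) * a ^ 2,
      by show 16 * a ^ 3 = (0) * (a + b) + (16 * a ^ 2) * (a); ring,
      by show 16 * b ^ 3 = (16 * a ^ 2 + (-16) * a * b + 16 * b ^ 2) * (a + b) + ((-16) * a ^ 2) * (a); ring⟩
  · exact ⟨16 * a ^ 2, (-16) * a ^ 2,
      (-16) * a * b + 16 * b ^ 2, 16 * a ^ 2,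
      by show 16 * a ^ 3 = (16 * a ^ 2) * (a + b) + ((-16) * a ^ 2) * (b); ring,
      by show 16 * b ^ 3 = ((-16) * a * b + 16 * b ^ 2) * (a + b) + (16 * a ^ 2) * (b); ring⟩
  · exact ⟨8 * a ^ 2, 8 * a ^ 2,
      8 * a ^ 2 + (-16) * a * b + 16 * b ^ 2, (-8) * a ^ 2,
      by show 16 * a ^ 3 = (8 * a ^ 2) * (a + b) + (8 * a ^ 2) * (a - b); ring,
      by show 16 * b ^ 3 = (8 * a ^ 2 + (-16) * a * b + 16 * b ^ 2) * (a + b) + ((-8) * a ^ 2) * (a - b); ring⟩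
  · exact absurd rfl h
  · exact ⟨8 * a ^ 2 + (-8) * a * b, 8 * a,
      8 * a ^ 2 + (-8) * a * b + 16 * b ^ 2, (-8) * a,
      by show 16 * a ^ 3 = (8 * a ^ 2 + (-8) * a * b) * (a + b) + (8 * a) * (a ^ 2 + b ^ 2); ring,
      by show 16 * b ^ 3 = (8 * a ^ 2 + (-8) * a * b + 16 * b ^ 2) * (a + b) + ((-8) * a) * (a ^ 2 + b ^ 2); ring⟩
  · exact ⟨8 * a ^ 2 + 8 * a * b, 8 * a,
      8 * a ^ 2 + (-24) * a * b + 16 * b ^ 2, (-8) * a,
      by show 16 * a ^ 3 = (8 * a ^ 2 + 8 * a * b) * (a + b) + (8 * a) * (a ^ 2 - 2 * a * b - b ^ 2); ring,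
      by show 16 * b ^ 3 = (8 * a ^ 2 + (-24) * a * b + 16 * b ^ 2) * (a + b) + ((-8) * a) * (a ^ 2 - 2 * a * b - b ^ 2); ring⟩
  · exact ⟨24 * a ^ 2 + (-8) * a * b, (-8) * a,
      (-8) * a ^ 2 + (-8) * a * b + 16 * b ^ 2, 8 * a,
      by show 16 * a ^ 3 = (24 * a ^ 2 + (-8) * a * b) * (a + b) + ((-8) * a) * (a ^ 2 + 2 * a * b - b ^ 2); ring,
      by show 16 * b ^ 3 = ((-8) * a ^ 2 + (-8) * a * b + 16 * b ^ 2) * (a + b) + (8 * a) * (a ^ 2 + 2 * a * b - b ^ 2); ring⟩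
  · exact ⟨0, 16 * a ^ 2,
      16 * b, (-16) * a * b,
      by show 16 * a ^ 3 = (0) * (a ^ 2 + b ^ 2) + (16 * a ^ 2) * (a); ring,
      by show 16 * b ^ 3 = (16 * b) * (a ^ 2 + b ^ 2) + ((-16) * a * b) * (a); ring⟩
  · exact ⟨16 * a, (-16) * a * b,
      16 * b, (-16) * a ^ 2,
      by show 16 * a ^ 3 = (16 * a) * (a ^ 2 + b ^ 2) + ((-16) * a * b) * (b); ring,
      by show 16 * b ^ 3 = (16 * b) * (a ^ 2 + b ^ 2) + ((-16) * a ^ 2) * (b); ring⟩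
  · exact ⟨8 * a, 8 * a ^ 2 + 8 * a * b,
      (-8) * a + 16 * b, 8 * a ^ 2 + (-8) * a * b,
      by show 16 * a ^ 3 = (8 * a) * (a ^ 2 + b ^ 2) + (8 * a ^ 2 + 8 * a * b) * (a - b); ring,
      by show 16 * b ^ 3 = ((-8) * a + 16 * b) * (a ^ 2 + b ^ 2) + (8 * a ^ 2 + (-8) * a * b) * (a - b); ring⟩
  · exact ⟨8 * a, 8 * a ^ 2 + (-8) * a * b,
      8 * a + 16 * b, (-8) * a ^ 2 + (-8) * a * b,
      by show 16 * a ^ 3 = (8 * a) * (a ^ 2 + b ^ 2) + (8 * a ^ 2 + (-8) * a * b) * (a + b); ring,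
      by show 16 * b ^ 3 = (8 * a + 16 * b) * (a ^ 2 + b ^ 2) + ((-8) * a ^ 2 + (-8) * a * b) * (a + b); ring⟩
  · exact absurd rfl h
  · exact ⟨12 * a + 4 * b, 4 * a + 4 * b,
      (-4) * a + 12 * b, 4 * a + (-4) * b,
      by show 16 * a ^ 3 = (12 * a + 4 * b) * (a ^ 2 + b ^ 2) + (4 * a + 4 * b) * (a ^ 2 - 2 * a * b - b ^ 2); ring,
      by show 16 * b ^ 3 = ((-4) * a + 12 * b) * (a ^ 2 + b ^ 2) + (4 * a + (-4) * b) * (a ^ 2 - 2 * a * b - b ^ 2); ring⟩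
  · exact ⟨12 * a + (-4) * b, 4 * a + (-4) * b,
      4 * a + 12 * b, (-4) * a + (-4) * b,
      by show 16 * a ^ 3 = (12 * a + (-4) * b) * (a ^ 2 + b ^ 2) + (4 * a + (-4) * b) * (a ^ 2 + 2 * a * b - b ^ 2); ring,
      by show 16 * b ^ 3 = (4 * a + 12 * b) * (a ^ 2 + b ^ 2) + ((-4) * a + (-4) * b) * (a ^ 2 + 2 * a * b - b ^ 2); ring⟩
  · exact ⟨0, 16 * a ^ 2,
      32 * a + (-16) * b, (-32) * a ^ 2 + 80 * a * b,
      by show 16 * a ^ 3 = (0) * (a ^ 2 - 2 * a * b - b ^ 2) + (16 * a ^ 2) * (a); ring,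
      by show 16 * b ^ 3 = (32 * a + (-16) * b) * (a ^ 2 - 2 * a * b - b ^ 2) + ((-32) * a ^ 2 + 80 * a * b) * (a); ring⟩
  · exact ⟨16 * a, 32 * a ^ 2 + 16 * a * b,
      (-16) * b, 16 * a ^ 2 + (-32) * a * b,
      by show 16 * a ^ 3 = (16 * a) * (a ^ 2 - 2 * a * b - b ^ 2) + (32 * a ^ 2 + 16 * a * b) * (b); ring,
      by show 16 * b ^ 3 = ((-16) * b) * (a ^ 2 - 2 * a * b - b ^ 2) + (16 * a ^ 2 + (-32) * a * b) * (b); ring⟩
  · exact ⟨(-8) * a, 24 * a ^ 2 + 8 * a * b,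
      8 * a + (-16) * b, (-8) * a ^ 2 + 24 * a * b,
      by show 16 * a ^ 3 = ((-8) * a) * (a ^ 2 - 2 * a * b - b ^ 2) + (24 * a ^ 2 + 8 * a * b) * (a - b); ring,
      by show 16 * b ^ 3 = (8 * a + (-16) * b) * (a ^ 2 - 2 * a * b - b ^ 2) + ((-8) * a ^ 2 + 24 * a * b) * (a - b); ring⟩
  · exact ⟨8 * a, 8 * a ^ 2 + 8 * a * b,
      (-24) * a + (-16) * b, 24 * a ^ 2 + (-56) * a * b,
      by show 16 * a ^ 3 = (8 * a) * (a ^ 2 - 2 * a * b - b ^ 2) + (8 * a ^ 2 + 8 * a * b) * (a + b); ring,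
      by show 16 * b ^ 3 = ((-24) * a + (-16) * b) * (a ^ 2 - 2 * a * b - b ^ 2) + (24 * a ^ 2 + (-56) * a * b) * (a + b); ring⟩
  · exact ⟨4 * a + 4 * b, 12 * a + 4 * b,
      4 * a + (-4) * b, (-4) * a + 12 * b,
      by show 16 * a ^ 3 = (4 * a + 4 * b) * (a ^ 2 - 2 * a * b - b ^ 2) + (12 * a + 4 * b) * (a ^ 2 + b ^ 2); ring,
      by show 16 * b ^ 3 = (4 * a + (-4) * b) * (a ^ 2 - 2 * a * b - b ^ 2) + ((-4) * a + 12 * b) * (a ^ 2 + b ^ 2); ring⟩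
  · exact absurd rfl h
  · exact ⟨8 * a + (-4) * b, 8 * a + 4 * b,
      (-4) * a + (-8) * b, 4 * a + (-8) * b,
      by show 16 * a ^ 3 = (8 * a + (-4) * b) * (a ^ 2 - 2 * a * b - b ^ 2) + (8 * a + 4 * b) * (a ^ 2 + 2 * a * b - b ^ 2); ring,
      by show 16 * b ^ 3 = ((-4) * a + (-8) * b) * (a ^ 2 - 2 * a * b - b ^ 2) + (4 * a + (-8) * b) * (a ^ 2 + 2 * a * b - b ^ 2); ring⟩
  · exact ⟨0, 16 * a ^ 2,
      (-32) * a + (-16) * b, 32 * a ^ 2 + 80 * a * b,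
      by show 16 * a ^ 3 = (0) * (a ^ 2 + 2 * a * b - b ^ 2) + (16 * a ^ 2) * (a); ring,
      by show 16 * b ^ 3 = ((-32) * a + (-16) * b) * (a ^ 2 + 2 * a * b - b ^ 2) + (32 * a ^ 2 + 80 * a * b) * (a); ring⟩
  · exact ⟨16 * a, (-32) * a ^ 2 + 16 * a * b,
      (-16) * b, 16 * a ^ 2 + 32 * a * b,
      by show 16 * a ^ 3 = (16 * a) * (a ^ 2 + 2 * a * b - b ^ 2) + ((-32) * a ^ 2 + 16 * a * b) * (b); ring,
      by show 16 * b ^ 3 = ((-16) * b) * (a ^ 2 + 2 * a * b - b ^ 2) + (16 * a ^ 2 + 32 * a * b) * (b); ring⟩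
  · exact ⟨8 * a, 8 * a ^ 2 + (-8) * a * b,
      24 * a + (-16) * b, (-24) * a ^ 2 + (-56) * a * b,
      by show 16 * a ^ 3 = (8 * a) * (a ^ 2 + 2 * a * b - b ^ 2) + (8 * a ^ 2 + (-8) * a * b) * (a - b); ring,
      by show 16 * b ^ 3 = (24 * a + (-16) * b) * (a ^ 2 + 2 * a * b - b ^ 2) + ((-24) * a ^ 2 + (-56) * a * b) * (a - b); ring⟩
  · exact ⟨(-8) * a, 24 * a ^ 2 + (-8) * a * b,
      (-8) * a + (-16) * b, 8 * a ^ 2 + 24 * a * b,
      by show 16 * a ^ 3 = ((-8) * a) * (a ^ 2 + 2 * a * b - b ^ 2) + (24 * a ^ 2 + (-8) * a * b) * (a + b); ring,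
      by show 16 * b ^ 3 = ((-8) * a + (-16) * b) * (a ^ 2 + 2 * a * b - b ^ 2) + (8 * a ^ 2 + 24 * a * b) * (a + b); ring⟩
  · exact ⟨4 * a + (-4) * b, 12 * a + (-4) * b,
      (-4) * a + (-4) * b, 4 * a + 12 * b,
      by show 16 * a ^ 3 = (4 * a + (-4) * b) * (a ^ 2 + 2 * a * b - b ^ 2) + (12 * a + (-4) * b) * (a ^ 2 + b ^ 2); ring,
      by show 16 * b ^ 3 = ((-4) * a + (-4) * b) * (a ^ 2 + 2 * a * b - b ^ 2) + (4 * a + 12 * b) * (a ^ 2 + b ^ 2); ring⟩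
  · exact ⟨8 * a + 4 * b, 8 * a + (-4) * b,
      4 * a + (-8) * b, (-4) * a + (-8) * b,
      by show 16 * a ^ 3 = (8 * a + 4 * b) * (a ^ 2 + 2 * a * b - b ^ 2) + (8 * a + (-4) * b) * (a ^ 2 - 2 * a * b - b ^ 2); ring,
      by show 16 * b ^ 3 = (4 * a + (-8) * b) * (a ^ 2 + 2 * a * b - b ^ 2) + ((-4) * a + (-8) * b) * (a ^ 2 - 2 * a * b - b ^ 2); ring⟩
  · exact absurd rfl h

lemma prime_dvd_two {p : ℕ} (hp : p.Prime) (h2 : 2 < p) {k : ℕ} : ¬ (p : ℤ) ∣ 2 ^ k := by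
  intro h3
  have h5 := (Nat.prime_iff_prime_int.1 hp).dvd_of_dvd_pow h3
  have h6 : p ∣ 2 := by exact_mod_cast h5
  have := Nat.le_of_dvd two_pos h6
  omega

/-- a large prime divides at most one of the forms -/
lemma un8 {a b : ℤ} (h : IsCoprime a b) {p : ℕ} (hp : p.Prime) (h2 : 2 < p) {j l : Fin 7}
    (hj : (p : ℤ) ∣ F8 a b j) (hl : (p : ℤ) ∣ F8 a b l) : j = l := by
  by_contra hne
  obtain ⟨x, y, x', y', h1, h1'⟩ := cert a b j l hne
  rw [Fr_int, Fr_int] at h1 h1'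
  have hpI : Prime (p : ℤ) := Nat.prime_iff_prime_int.1 hp
  have h16 : ¬ (p : ℤ) ∣ 16 := by
    have := prime_dvd_two hp h2 (k := 4)
    norm_num at this
    exact this
  have ha : (p : ℤ) ∣ a := by
    have h3 : (p : ℤ) ∣ 16 * a ^ 3 := by rw [h1]; exact dvd_add (hj.mul_left _) (hl.mul_left _)
    exact hpI.dvd_of_dvd_pow ((hpI.dvd_or_dvd h3).resolve_left h16)
  have hb : (p : ℤ) ∣ b := by
    have h3 : (p : ℤ) ∣ 16 * b ^ 3 := by rw [h1']; exact dvd_add (hj.mul_left _) (hl.mul_left _)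
    exact hpI.dvd_of_dvd_pow ((hpI.dvd_or_dvd h3).resolve_left h16)
  exact hpI.not_isUnit (h.isUnit_of_dvd' ha hb)

section zmod

variable {p : ℕ} [Fact p.Prime]

lemma two_ne (h7 : 7 < p) : (2 : ZMod p) ≠ 0 := by
  intro h
  have h1 : ((2 : ℕ) : ZMod p) = 0 := by exact_mod_cast h
  rw [ZMod.natCast_eq_zero_iff] at h1
  have := Nat.le_of_dvd two_pos h1
  omega

lemma num_ne (h7 : 7 < p) {n : ℕ} (hn : 0 < n) (hn7 : n ≤ 7) : ((n : ℕ) : ZMod p) ≠ 0 := by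
  intro h1
  rw [ZMod.natCast_eq_zero_iff] at h1
  have := Nat.le_of_dvd hn h1
  omega

/-- the roots of a linear polynomial -/
lemma card_lin {α β : ZMod p} (hα : α ≠ 0) :
    (univ.filter (fun x : ZMod p => α * x + β = 0)).card = 1 := by
  rw [card_eq_one]
  refine ⟨-β / α, ?_⟩
  ext x
  rw [mem_filter, mem_singleton]
  constructor
  · rintro ⟨-, h⟩
    rw [eq_div_iff hα]
    linear_combination h
  · rintro rfl
    refine ⟨mem_univ _, ?_⟩
    rw [mul_div_cancel₀ _ hα]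
    ring

/-- the roots of a quadratic polynomial -/
lemma card_quad (h7 : 7 < p) {A B C : ZMod p} (hA : A ≠ 0) :
    ((univ.filter (fun x : ZMod p => A * x ^ 2 + B * x + C = 0)).card : ℤ) =
      quadraticChar (ZMod p) (B ^ 2 - 4 * A * C) + 1 := by
  have h2 : (2 : ZMod p) ≠ 0 := two_ne h7
  have hch : ringChar (ZMod p) ≠ 2 := by
    rw [ZMod.ringChar_zmod_n]
    omega
  rw [← quadraticChar_card_sqrts hch (B ^ 2 - 4 * A * C)]
  congr 1
  refine card_nbij' (fun x => 2 * A * x + B) (fun y => (y - B) / (2 * A)) ?_ ?_ ?_ ?_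
  · intro x hx
    have hx' := (mem_filter.1 (mem_coe.1 hx)).2
    rw [mem_coe, Set.mem_toFinset]
    show (2 * A * x + B) ^ 2 = B ^ 2 - 4 * A * C
    linear_combination 4 * A * hx'
  · intro y hy
    rw [mem_coe, Set.mem_toFinset] at hy
    have hy' : y ^ 2 = B ^ 2 - 4 * A * C := hy
    rw [mem_coe, mem_filter]
    refine ⟨mem_univ _, ?_⟩
    field_simp
    linear_combination hy'
  · intro x _
    show (2 * A * x + B - B) / (2 * A) = x
    field_simp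
    ring
  · intro y _
    show 2 * A * ((y - B) / (2 * A)) + B = y
    field_simp
    ring

lemma qc_neg_one (h7 : 7 < p) : quadraticChar (ZMod p) (-1) = if p % 4 = 1 then 1 else -1 := by
  have hp : p.Prime := Fact.out
  have hodd : p % 2 = 1 := hp.eq_two_or_odd.resolve_left (by omega)
  have h := ZMod.exists_sq_eq_neg_one_iff (p := p)
  split_ifs with h1
  · rw [quadraticChar_one_iff_isSquare (neg_ne_zero.2 one_ne_zero)]
    rw [h]; omega
  · rw [quadraticChar_neg_one_iff_not_isSquare, h]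
    omega

lemma qc_two (h7 : 7 < p) : quadraticChar (ZMod p) 2 =
    if p % 8 = 1 ∨ p % 8 = 7 then 1 else -1 := by
  have h := ZMod.exists_sq_eq_two_iff (p := p) (by omega)
  split_ifs with h1
  · rw [quadraticChar_one_iff_isSquare (two_ne h7)]
    rwa [h]
  · rw [quadraticChar_neg_one_iff_not_isSquare, h]
    exact h1

/-- the sum of the numbers of the roots -/
lemma sum_rr (h7 : 7 < p) : ∑ j, rr8 (j, ty8 j p) p = 7 + Jr (-1) p + 2 * Jr 2 p := by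
  have hp : p.Prime := Fact.out
  have hodd : p % 2 = 1 := hp.eq_two_or_odd.resolve_left (by omega)
  have e1 : Jr (-1) p = ((quadraticChar (ZMod p) (-1) : ℤ) : ℝ) := by
    unfold Jr
    rw [← jacobiSym.legendreSym.to_jacobiSym]
    unfold legendreSym
    push_cast
    rfl
  have e2 : Jr 2 p = ((quadraticChar (ZMod p) 2 : ℤ) : ℝ) := by
    unfold Jr
    rw [← jacobiSym.legendreSym.to_jacobiSym]
    unfold legendreSym
    push_cast
    rfl
  rw [e1, e2, qc_neg_one h7, qc_two h7]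
  have h8 : p % 8 = 1 ∨ p % 8 = 3 ∨ p % 8 = 5 ∨ p % 8 = 7 := by omega
  have v3 : ((3 : Fin 7) : ℕ) = 3 := rfl
  have v4 : ((4 : Fin 7) : ℕ) = 4 := rfl
  have v5 : ((5 : Fin 7) : ℕ) = 5 := rfl
  have v6 : ((6 : Fin 7) : ℕ) = 6 := rfl
  rcases h8 with h8 | h8 | h8 | h8
  · have h4 : p % 4 = 1 := by omega
    simp [Fin.sum_univ_seven, rr8, ty8, h8, h4, v3, v4, v5, v6]
    norm_num
  · have h4 : p % 4 = 3 := by omega
    simp [Fin.sum_univ_seven, rr8, ty8, h8, h4, v3, v4, v5, v6]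
    norm_num
  · have h4 : p % 4 = 1 := by omega
    simp [Fin.sum_univ_seven, rr8, ty8, h8, h4, v3, v4, v5, v6]
    norm_num
  · have h4 : p % 4 = 3 := by omega
    simp [Fin.sum_univ_seven, rr8, ty8, h8, h4, v3, v4, v5, v6]
    norm_num

/-- the number of the roots of the form `j` -/
noncomputable def nr (p : ℕ) [Fact p.Prime] (w : ZMod p) (j : Fin 7) : ℕ :=
  (univ.filter (fun x : ZMod p => Fr x (w + 2 * x) j = 0)).card

lemma nr0 (w : ZMod p) : nr p w 0 = 1 := by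
  have h := card_lin (p := p) (α := 1) (β := 0) one_ne_zero
  unfold nr
  rw [← h]
  congr 1
  refine filter_congr fun x _ => ?_
  show x = 0 ↔ _
  rw [one_mul, add_zero]

lemma nr1 (h7 : 7 < p) (w : ZMod p) : nr p w 1 = 1 := by
  have h := card_lin (p := p) (α := 2) (β := w) (two_ne h7)
  unfold nr
  rw [← h]
  congr 1
  refine filter_congr fun x _ => ?_
  show w + 2 * x = 0 ↔ _
  rw [add_comm]

lemma nr2 (w : ZMod p) : nr p w 2 = 1 := by
  have h := card_lin (p := p) (α := -1) (β := -w) (neg_ne_zero.2 one_ne_zero)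
  unfold nr
  rw [← h]
  congr 1
  refine filter_congr fun x _ => ?_
  show x - (w + 2 * x) = 0 ↔ _
  rw [show x - (w + 2 * x) = -1 * x + -w by ring]

lemma nr3 (h7 : 7 < p) (w : ZMod p) : nr p w 3 = 1 := by
  have h := card_lin (p := p) (α := 3) (β := w) (by exact_mod_cast num_ne h7 (n := 3) (by omega) (by omega))
  unfold nr
  rw [← h]
  congr 1
  refine filter_congr fun x _ => ?_
  show x + (w + 2 * x) = 0 ↔ _
  rw [show x + (w + 2 * x) = 3 * x + w by ring]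

lemma nr4 (h7 : 7 < p) (w : ZMod p) : (nr p w 4 : ℤ) =
    quadraticChar (ZMod p) (-1 * (2 * w) ^ 2) + 1 := by
  have h := card_quad (p := p) h7 (A := 5) (B := 4 * w) (C := w ^ 2)
    (by exact_mod_cast num_ne h7 (n := 5) (by omega) (by omega))
  unfold nr
  rw [show (-1 * (2 * w) ^ 2 : ZMod p) = (4 * w) ^ 2 - 4 * 5 * w ^ 2 by ring, ← h]
  congr 2
  refine filter_congr fun x _ => ?_
  show x ^ 2 + (w + 2 * x) ^ 2 = 0 ↔ _
  rw [show x ^ 2 + (w + 2 * x) ^ 2 = 5 * x ^ 2 + 4 * w * x + w ^ 2 by ring]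

lemma nr5 (h7 : 7 < p) (w : ZMod p) : (nr p w 5 : ℤ) =
    quadraticChar (ZMod p) (2 * (2 * w) ^ 2) + 1 := by
  have h := card_quad (p := p) h7 (A := -7) (B := -6 * w) (C := - w ^ 2)
    (neg_ne_zero.2 (by exact_mod_cast num_ne h7 (n := 7) (by omega) (by omega)))
  unfold nr
  rw [show (2 * (2 * w) ^ 2 : ZMod p) = (-6 * w) ^ 2 - 4 * -7 * -w ^ 2 by ring, ← h]
  congr 2
  refine filter_congr fun x _ => ?_
  show x ^ 2 - 2 * x * (w + 2 * x) - (w + 2 * x) ^ 2 = 0 ↔ _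
  rw [show x ^ 2 - 2 * x * (w + 2 * x) - (w + 2 * x) ^ 2 = -7 * x ^ 2 + -6 * w * x + -w ^ 2 by ring]

lemma nr6 (h7 : 7 < p) (w : ZMod p) : (nr p w 6 : ℤ) =
    quadraticChar (ZMod p) (2 * (2 * w) ^ 2) + 1 := by
  have h := card_quad (p := p) h7 (A := 1) (B := -2 * w) (C := - w ^ 2) one_ne_zero
  unfold nr
  rw [show (2 * (2 * w) ^ 2 : ZMod p) = (-2 * w) ^ 2 - 4 * 1 * -w ^ 2 by ring, ← h]
  congr 2
  refine filter_congr fun x _ => ?_
  show x ^ 2 + 2 * x * (w + 2 * x) - (w + 2 * x) ^ 2 = 0 ↔ _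
  rw [show x ^ 2 + 2 * x * (w + 2 * x) - (w + 2 * x) ^ 2 = 1 * x ^ 2 + -2 * w * x + -w ^ 2 by ring]

lemma qc_le (a : ZMod p) : quadraticChar (ZMod p) a ≤ 1 := by
  by_cases h : a = 0
  · rw [h, quadraticChar_zero]; norm_num
  · rcases quadraticChar_dichotomy h with h | h <;> rw [h]; norm_num

lemma qc_mul {w : ZMod p} (h7 : 7 < p) (hw : w ≠ 0) (c : ZMod p) :
    quadraticChar (ZMod p) (c * (2 * w) ^ 2) = quadraticChar (ZMod p) c := by
  rw [map_mul, quadraticChar_sq_one' (mul_ne_zero (two_ne h7) hw), mul_one]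

lemma nr_le2 (h7 : 7 < p) (w : ZMod p) (j : Fin 7) : nr p w j ≤ 2 := by
  have h4 := nr4 h7 w
  have h5 := nr5 h7 w
  have h6 := nr6 h7 w
  have q1 := qc_le (-1 * (2 * w) ^ 2)
  have q2 := qc_le (2 * (2 * w) ^ 2)
  have a0 := nr0 w
  have a1 := nr1 h7 w
  have a2 := nr2 w
  have a3 := nr3 h7 w
  fin_cases j
  · show nr p w 0 ≤ 2; omega
  · show nr p w 1 ≤ 2; omega
  · show nr p w 2 ≤ 2; omega
  · show nr p w 3 ≤ 2; omega
  · show nr p w 4 ≤ 2; omega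
  · show nr p w 5 ≤ 2; omega
  · show nr p w 6 ≤ 2; omega

lemma nr_sum (h7 : 7 < p) (w : ZMod p) : ∑ j, nr p w j ≤ 10 := by
  have h4 := nr4 h7 w
  have h5 := nr5 h7 w
  have h6 := nr6 h7 w
  have q1 := qc_le (-1 * (2 * w) ^ 2)
  have q2 := qc_le (2 * (2 * w) ^ 2)
  have a0 := nr0 w
  have a1 := nr1 h7 w
  have a2 := nr2 w
  have a3 := nr3 h7 w
  rw [Fin.sum_univ_seven]
  omega

/-- the number of the roots -/
lemma nr_eq (h7 : 7 < p) {w : ZMod p} (hw : w ≠ 0) (j : Fin 7) :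
    (nr p w j : ℝ) = rr8 (j, ty8 j p) p := by
  have hp : p.Prime := Fact.out
  have hodd : p % 2 = 1 := hp.eq_two_or_odd.resolve_left (by omega)
  have h4 := nr4 h7 w
  have h5 := nr5 h7 w
  have h6 := nr6 h7 w
  rw [qc_mul h7 hw, qc_neg_one h7] at h4
  rw [qc_mul h7 hw, qc_two h7] at h5 h6
  fin_cases j
  · show (nr p w 0 : ℝ) = rr8 (0, ty8 0 p) p
    rw [nr0]; simp [rr8, ty8]
  · show (nr p w 1 : ℝ) = rr8 (1, ty8 1 p) p
    rw [nr1 h7]; simp [rr8, ty8]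
  · show (nr p w 2 : ℝ) = rr8 (2, ty8 2 p) p
    rw [nr2]; simp [rr8, ty8]
  · show (nr p w 3 : ℝ) = rr8 (3, ty8 3 p) p
    have v3 : ((3 : Fin 7) : ℕ) = 3 := rfl
    rw [nr3 h7]; simp [rr8, ty8, v3]
  · show (nr p w 4 : ℝ) = rr8 (4, ty8 4 p) p
    have v4 : ((4 : Fin 7) : ℕ) = 4 := rfl
    by_cases h : p % 4 = 1
    · rw [if_pos h] at h4
      have : nr p w 4 = 2 := by omega
      rw [this]; simp [rr8, ty8, v4, h]
    · rw [if_neg h] at h4
      have : nr p w 4 = 0 := by omega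
      rw [this]; simp [rr8, ty8, v4, h]
  · show (nr p w 5 : ℝ) = rr8 (5, ty8 5 p) p
    have v5 : ((5 : Fin 7) : ℕ) = 5 := rfl
    have h8 : p % 8 = 1 ∨ p % 8 = 3 ∨ p % 8 = 5 ∨ p % 8 = 7 := by omega
    rcases h8 with h8 | h8 | h8 | h8
    · have h4' : p % 4 = 1 := by omega
      have : nr p w 5 = 2 := by rw [if_pos (Or.inl h8)] at h5; omega
      rw [this]; simp [rr8, ty8, v5, h8, h4']
    · have h4' : p % 4 = 3 := by omega
      have : nr p w 5 = 0 := by rw [if_neg (by omega)] at h5; omega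
      rw [this]; simp [rr8, ty8, v5, h8, h4']
    · have h4' : p % 4 = 1 := by omega
      have : nr p w 5 = 0 := by rw [if_neg (by omega)] at h5; omega
      rw [this]; simp [rr8, ty8, v5, h8, h4']
    · have h4' : p % 4 = 3 := by omega
      have : nr p w 5 = 2 := by rw [if_pos (Or.inr h8)] at h5; omega
      rw [this]; simp [rr8, ty8, v5, h8, h4']
  · show (nr p w 6 : ℝ) = rr8 (6, ty8 6 p) p
    have v6 : ((6 : Fin 7) : ℕ) = 6 := rfl
    have h8 : p % 8 = 1 ∨ p % 8 = 3 ∨ p % 8 = 5 ∨ p % 8 = 7 := by omega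
    rcases h8 with h8 | h8 | h8 | h8
    · have h4' : p % 4 = 1 := by omega
      have : nr p w 6 = 2 := by rw [if_pos (Or.inl h8)] at h6; omega
      rw [this]; simp [rr8, ty8, v6, h8, h4']
    · have h4' : p % 4 = 3 := by omega
      have : nr p w 6 = 0 := by rw [if_neg (by omega)] at h6; omega
      rw [this]; simp [rr8, ty8, v6, h8, h4']
    · have h4' : p % 4 = 1 := by omega
      have : nr p w 6 = 0 := by rw [if_neg (by omega)] at h6; omega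
      rw [this]; simp [rr8, ty8, v6, h8, h4']
    · have h4' : p % 4 = 3 := by omega
      have : nr p w 6 = 2 := by rw [if_pos (Or.inr h8)] at h6; omega
      rw [this]; simp [rr8, ty8, v6, h8, h4']

/-- residues and integers -/
lemma card_res (N : ℤ) (P : ZMod p → Prop) [DecidablePred P] :
    ((range p).filter (fun n : ℕ => P (((n : ℤ) - N : ℤ) : ZMod p))).card =
      (univ.filter P).card := by
  have hp : p.Prime := Fact.out
  have : NeZero p := ⟨hp.ne_zero⟩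
  refine card_nbij' (fun n : ℕ => (((n : ℤ) - N : ℤ) : ZMod p)) (fun x => (x + (N : ZMod p)).val)
    ?_ ?_ ?_ ?_
  · intro n hn
    exact mem_coe.2 (mem_filter.2 ⟨mem_univ _, (mem_filter.1 (mem_coe.1 hn)).2⟩)
  · intro x hx
    refine mem_coe.2 (mem_filter.2 ⟨mem_range.2 (ZMod.val_lt _), ?_⟩)
    have h1 : ((((x + (N : ZMod p)).val : ℕ) : ℤ) - N : ℤ) = (x : ZMod p) := by
      push_cast
      rw [ZMod.natCast_val, ZMod.cast_id', id]
      ring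
    rw [h1]
    exact (mem_filter.1 (mem_coe.1 hx)).2
  · intro n hn
    have hn' := mem_range.1 (mem_filter.1 (mem_coe.1 hn)).1
    show ((((n : ℤ) - N : ℤ) : ZMod p) + (N : ZMod p)).val = n
    push_cast
    rw [sub_add_cancel, ZMod.val_cast_of_lt hn']
  · intro x _
    show ((((x + (N : ZMod p)).val : ℕ) : ℤ) - N : ℤ) = (x : ZMod p)
    push_cast
    rw [ZMod.natCast_val, ZMod.cast_id', id]
    ring

lemma dvd_iff (w t : ℤ) (j : Fin 7) : (p : ℤ) ∣ F8 t (w + 2 * t) j ↔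
    Fr (t : ZMod p) ((w : ZMod p) + 2 * (t : ZMod p)) j = 0 := by
  rw [← ZMod.intCast_zmod_eq_zero_iff_dvd, Fr_cast]
  push_cast
  rfl

/-- the number of the residues where the form `j` vanishes -/
lemma card_rt (N w : ℤ) (j : Fin 7) :
    ((range p).filter (fun n : ℕ => (p : ℤ) ∣ F8 (n - N) (w + 2 * (n - N)) j)).card =
      nr p (w : ZMod p) j := by
  unfold nr
  rw [← card_res N (fun x : ZMod p => Fr x ((w : ZMod p) + 2 * x) j = 0)]
  congr 1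
  refine filter_congr fun n _ => ?_
  rw [dvd_iff]

/-- the number of the residues where some form vanishes -/
lemma card_any_le (h7 : 7 < p) (N w : ℤ) :
    ((range p).filter (fun n : ℕ => ∃ j, (p : ℤ) ∣ F8 (n - N) (w + 2 * (n - N)) j)).card ≤ 10 := by
  have h1 : (range p).filter (fun n : ℕ => ∃ j, (p : ℤ) ∣ F8 (n - N) (w + 2 * (n - N)) j) =
      univ.biUnion (fun j => (range p).filter
        (fun n : ℕ => (p : ℤ) ∣ F8 (n - N) (w + 2 * (n - N)) j)) := by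
    ext n
    simp only [mem_filter, mem_biUnion, mem_univ, true_and]
    exact ⟨fun ⟨h, j, hj⟩ => ⟨j, h, hj⟩, fun ⟨j, h, hj⟩ => ⟨h, j, hj⟩⟩
  rw [h1]
  refine card_biUnion_le.trans (le_trans (le_of_eq ?_) (nr_sum h7 (w : ZMod p)))
  exact sum_congr rfl fun j _ => card_rt N w j

lemma card_any (h7 : 7 < p) (N : ℤ) {w : ℤ} (hw : ¬ (p : ℤ) ∣ w) :
    (((range p).filter (fun n : ℕ => ∃ j, (p : ℤ) ∣ F8 (n - N) (w + 2 * (n - N)) j)).card : ℝ) =
      ∑ j, rr8 (j, ty8 j p) p := by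
  have hp : p.Prime := Fact.out
  have h1 : (range p).filter (fun n : ℕ => ∃ j, (p : ℤ) ∣ F8 (n - N) (w + 2 * (n - N)) j) =
      univ.biUnion (fun j => (range p).filter
        (fun n : ℕ => (p : ℤ) ∣ F8 (n - N) (w + 2 * (n - N)) j)) := by
    ext n
    simp only [mem_filter, mem_biUnion, mem_univ, true_and]
    exact ⟨fun ⟨h, j, hj⟩ => ⟨j, h, hj⟩, fun ⟨j, h, hj⟩ => ⟨h, j, hj⟩⟩
  have hw' : (w : ZMod p) ≠ 0 := by
    rwa [Ne, ZMod.intCast_zmod_eq_zero_iff_dvd]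
  rw [h1, card_biUnion]
  · push_cast
    exact sum_congr rfl fun j _ => by rw [card_rt N w j, nr_eq h7 hw']
  · intro j _ l _ hjl
    rw [Function.onFun, Finset.disjoint_left]
    intro n hn hn'
    have a1 := (mem_filter.1 hn).2
    have a2 := (mem_filter.1 hn').2
    rw [← Fr_int] at a1 a2
    obtain ⟨x, y, x', y', c1, c2⟩ := cert ((n : ℤ) - N) (w + 2 * (n - N)) j l hjl
    have hpI : Prime (p : ℤ) := Nat.prime_iff_prime_int.1 hp
    have h16 : ¬ (p : ℤ) ∣ 16 := by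
      have := prime_dvd_two hp (by omega) (k := 4)
      norm_num at this
      exact this
    have ha : (p : ℤ) ∣ (n : ℤ) - N := by
      have h3 : (p : ℤ) ∣ 16 * ((n : ℤ) - N) ^ 3 := by
        rw [c1]; exact dvd_add (a1.mul_left _) (a2.mul_left _)
      exact hpI.dvd_of_dvd_pow ((hpI.dvd_or_dvd h3).resolve_left h16)
    have hb : (p : ℤ) ∣ w + 2 * (n - N) := by
      have h3 : (p : ℤ) ∣ 16 * (w + 2 * (n - N)) ^ 3 := by
        rw [c2]; exact dvd_add (a1.mul_left _) (a2.mul_left _)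
      exact hpI.dvd_of_dvd_pow ((hpI.dvd_or_dvd h3).resolve_left h16)
    apply hw
    have := dvd_sub hb (ha.mul_left 2)
    rwa [add_sub_cancel_right] at this

end zmod

/-- the values at `(t, w + 2 t)`: lifting of the roots -/
lemma lift8 {p : ℕ} (hp : p.Prime) (h7 : 7 < p) {w t t' : ℤ} (hw : ¬ (p : ℤ) ∣ w) {j : Fin 7}
    (h1 : (p : ℤ) ^ 2 ∣ F8 t (w + 2 * t) j) (h2 : (p : ℤ) ^ 2 ∣ F8 t' (w + 2 * t') j)
    (h3 : (p : ℤ) ∣ t - t') : (p : ℤ) ^ 2 ∣ t - t' := by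
  have hpI : Prime (p : ℤ) := Nat.prime_iff_prime_int.1 hp
  have hnum : ∀ n : ℕ, 0 < n → n ≤ 7 → ¬ (p : ℤ) ∣ (n : ℤ) := by
    intro n hn hn7 h
    have := Nat.le_of_dvd hn (Int.natCast_dvd_natCast.1 h)
    omega
  have key : ∀ L : ℤ, F8 t (w + 2 * t) j - F8 t' (w + 2 * t') j = (t - t') * L → ¬ (p : ℤ) ∣ L →
      (p : ℤ) ^ 2 ∣ t - t' := by
    intro L hL hpL
    have h4 : (p : ℤ) ^ 2 ∣ (t - t') * L := by rw [← hL]; exact dvd_sub h1 h2
    have hcop : IsCoprime ((p : ℤ) ^ 2) L := ((hpI.coprime_iff_not_dvd).2 hpL).pow_left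
    exact hcop.dvd_of_dvd_mul_right h4
  have h2' : (p : ℤ) ∣ F8 t' (w + 2 * t') j := (dvd_pow_self (p : ℤ) two_ne_zero).trans h2
  have quad : ∀ A B Δ : ℤ, F8 t (w + 2 * t) j - F8 t' (w + 2 * t') j =
      (t - t') * (A * (t + t') + B * w) →
      (2 * A * t' + B * w) ^ 2 = 4 * A * F8 t' (w + 2 * t') j + Δ * w ^ 2 → ¬ (p : ℤ) ∣ Δ →
      (p : ℤ) ^ 2 ∣ t - t' := by
    intro A B Δ hL hq hΔ
    refine key _ hL fun h => ?_
    have h5 : (p : ℤ) ∣ 2 * A * t' + B * w := by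
      have : 2 * A * t' + B * w = (A * (t + t') + B * w) - A * (t - t') := by ring
      rw [this]
      exact dvd_sub h (h3.mul_left _)
    have h6 : (p : ℤ) ∣ Δ * w ^ 2 := by
      have : Δ * w ^ 2 = (2 * A * t' + B * w) ^ 2 - 4 * A * F8 t' (w + 2 * t') j := by
        rw [hq]; ring
      rw [this]
      exact dvd_sub (h5.trans (dvd_pow_self _ two_ne_zero)) (h2'.mul_left _)
    rcases hpI.dvd_or_dvd h6 with h7 | h7
    · exact hΔ h7
    · exact hw (hpI.dvd_of_dvd_pow h7)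
  have hone : ¬ (p : ℤ) ∣ 1 := fun h => hpI.not_isUnit (isUnit_of_dvd_one h)
  have h4 : ¬ (p : ℤ) ∣ -4 := by
    rw [dvd_neg]; exact_mod_cast hnum 4 (by omega) (by omega)
  have h8 : ¬ (p : ℤ) ∣ 8 := by
    have := prime_dvd_two hp (by omega) (k := 3)
    norm_num at this
    exact this
  fin_cases j
  · refine key 1 ?_ hone
    show t - t' = (t - t') * 1
    ring
  · refine key 2 ?_ (by exact_mod_cast hnum 2 (by omega) (by omega))
    show (w + 2 * t) - (w + 2 * t') = (t - t') * 2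
    ring
  · refine key (-1) ?_ (by rw [dvd_neg]; exact hone)
    show (t - (w + 2 * t)) - (t' - (w + 2 * t')) = (t - t') * (-1)
    ring
  · refine key 3 ?_ (by exact_mod_cast hnum 3 (by omega) (by omega))
    show (t + (w + 2 * t)) - (t' + (w + 2 * t')) = (t - t') * 3
    ring
  · refine quad 5 4 (-4) ?_ ?_ h4
    · show (t ^ 2 + (w + 2 * t) ^ 2) - (t' ^ 2 + (w + 2 * t') ^ 2) =
        (t - t') * (5 * (t + t') + 4 * w)
      ring
    · show (2 * 5 * t' + 4 * w) ^ 2 = 4 * 5 * (t' ^ 2 + (w + 2 * t') ^ 2) + (-4) * w ^ 2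
      ring
  · refine quad (-7) (-6) 8 ?_ ?_ h8
    · show (t ^ 2 - 2 * t * (w + 2 * t) - (w + 2 * t) ^ 2) -
        (t' ^ 2 - 2 * t' * (w + 2 * t') - (w + 2 * t') ^ 2) =
        (t - t') * ((-7) * (t + t') + (-6) * w)
      ring
    · show (2 * (-7) * t' + (-6) * w) ^ 2 =
        4 * (-7) * (t' ^ 2 - 2 * t' * (w + 2 * t') - (w + 2 * t') ^ 2) + 8 * w ^ 2
      ring
  · refine quad 1 (-2) 8 ?_ ?_ h8
    · show (t ^ 2 + 2 * t * (w + 2 * t) - (w + 2 * t) ^ 2) -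
        (t' ^ 2 + 2 * t' * (w + 2 * t') - (w + 2 * t') ^ 2) =
        (t - t') * (1 * (t + t') + (-2) * w)
      ring
    · show (2 * 1 * t' + (-2) * w) ^ 2 =
        4 * 1 * (t' ^ 2 + 2 * t' * (w + 2 * t') - (w + 2 * t') ^ 2) + 8 * w ^ 2
      ring

/-- a large prime which divides a form at `(t, w + 2 t)` does not divide `w` -/
lemma not_dvd_w {p : ℕ} (hp : p.Prime) (h7 : 7 < p) {w t : ℤ} (hc : IsCoprime t (w + 2 * t))
    {j : Fin 7} (h : (p : ℤ) ∣ F8 t (w + 2 * t) j) : ¬ (p : ℤ) ∣ w := by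
  intro hw
  have hpI : Prime (p : ℤ) := Nat.prime_iff_prime_int.1 hp
  have hnum : ∀ n : ℕ, 0 < n → n ≤ 7 → ¬ (p : ℤ) ∣ (n : ℤ) := by
    intro n hn hn7 h
    have := Nat.le_of_dvd hn (Int.natCast_dvd_natCast.1 h)
    omega
  have key : ∀ (c k : ℤ) (d : ℕ), F8 t (w + 2 * t) j = c * t ^ d + k * w → ¬ (p : ℤ) ∣ c → False := by
    intro c k d he hcn
    rw [he] at h
    have h1 : (p : ℤ) ∣ c * t ^ d := (dvd_add_left (hw.mul_left _)).1 h
    have ht : (p : ℤ) ∣ t := hpI.dvd_of_dvd_pow ((hpI.dvd_or_dvd h1).resolve_left hcn)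
    exact hpI.not_isUnit (hc.isUnit_of_dvd' ht (dvd_add hw (ht.mul_left _)))
  have hone : ¬ (p : ℤ) ∣ 1 := fun h => hpI.not_isUnit (isUnit_of_dvd_one h)
  fin_cases j
  · refine key 1 0 1 ?_ hone
    show t = _
    ring
  · refine key 2 1 1 ?_ (by exact_mod_cast hnum 2 (by omega) (by omega))
    show w + 2 * t = _
    ring
  · refine key (-1) (-1) 1 ?_ (by rw [dvd_neg]; exact hone)
    show t - (w + 2 * t) = _
    ring
  · refine key 3 1 1 ?_ (by exact_mod_cast hnum 3 (by omega) (by omega))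
    show t + (w + 2 * t) = _
    ring
  · refine key 5 (4 * t + w) 2 ?_ (by exact_mod_cast hnum 5 (by omega) (by omega))
    show t ^ 2 + (w + 2 * t) ^ 2 = _
    ring
  · refine key (-7) (-6 * t - w) 2 ?_ (by rw [dvd_neg]; exact_mod_cast hnum 7 (by omega) (by omega))
    show t ^ 2 - 2 * t * (w + 2 * t) - (w + 2 * t) ^ 2 = _
    ring
  · refine key 1 (-2 * t - w) 2 ?_ hone
    show t ^ 2 + 2 * t * (w + 2 * t) - (w + 2 * t) ^ 2 = _
    ring

end Pool.Agent.Y237.Z8
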